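import Pool.Agent.Work.MP_48678a_h55.Main

/-!
Roots of polynomials at `b^(-k)` have the digit `b - 1`.
-/

namespace Pool.Agent.Work.H55M

open Finset Polynomial

lemma cast_eval (f : ℤ[X]) (q : ℚ) : (((f.map (Int.castRingHom ℚ)).eval q : ℚ) : ℝ) =
    (f.map (Int.castRingHom ℝ)).eval (q : ℝ) := by
  rw [eval_map, eval_map]
  have h := Polynomial.hom_eval₂ f (Int.castRingHom ℚ) (Rat.castHom ℝ) q
  have e : (Rat.castHom ℝ).comp (Int.castRingHom ℚ) = Int.castRingHom ℝ := RingHom.ext_int _ _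
  rw [e] at h
  exact h

lemma pow_le_of_natAbs (T : ℕ) (B : ℕ) (x : ℤ) (h : |x| ^ T ≤ (B : ℤ)) : x.natAbs ^ T ≤ B := by
  have : ((x.natAbs ^ T : ℕ) : ℤ) ≤ (B : ℤ) := by
    push_cast
    exact h
  exact_mod_cast this

theorem family (b d c D : ℕ) (hb : 3 ≤ b) (hd : 1 ≤ d) (hc : 1 ≤ c) :
    ∃ T k₀ : ℕ, ∀ k : ℕ, k₀ ≤ k → ∀ f : ℤ[X], f.natDegree ≤ D → f.coeff 0 = (c : ℤ) ^ d →
      (∀ i, 1 ≤ i → |f.coeff i| ^ T ≤ (b : ℤ) ^ k) →
      (¬ ∃ g : ℚ[X], g ^ d = f.map (Int.castRingHom ℚ)) →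
      ∀ α : ℝ, 0 < α → α ^ d = (f.map (Int.castRingHom ℝ)).eval (((b : ℝ) ^ k)⁻¹) →
        ∀ (m : ℤ) (ε : ℕ → ℕ), (∀ n, ε n ≤ b - 2) →
          α ≠ (b : ℝ) ^ m * ∑' n, (ε n : ℝ) / (b : ℝ) ^ n := by
  obtain ⟨T, δ, hδ, hmain⟩ := below_integer b d c D (by omega) hd hc
  have hb1 : (1 : ℝ) < b := by exact_mod_cast (by omega : 1 < b)
  obtain ⟨k₀, hk₀⟩ := pow_unbounded_of_one_lt ((1 / δ) ^ 2) hb1
  refine ⟨2 * T, k₀, ?_⟩
  intro k hk f hfD hf0 hfT hnp α hα hαd m ε hε hcon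
  -- the height
  set H : ℕ := ((range (D + 1)).sup fun i => (f.coeff (i + 1)).natAbs) ⊔ 1 with hH
  have hH1 : 1 ≤ H := le_sup_right
  have hHT : H ^ (2 * T) ≤ b ^ k := by
    have hone : 1 ^ (2 * T) ≤ b ^ k := by rw [one_pow]; exact Nat.one_le_pow _ _ (by omega)
    have hsup : ∀ x y : ℕ, x ^ (2 * T) ≤ b ^ k → y ^ (2 * T) ≤ b ^ k → (x ⊔ y) ^ (2 * T) ≤ b ^ k := by
      intro x y hx hy
      rcases le_total x y with h | h
      · rw [sup_eq_right.mpr h]; exact hy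
      · rw [sup_eq_left.mpr h]; exact hx
    rw [hH]
    refine hsup _ _ ?_ hone
    refine Finset.sup_induction (p := fun x : ℕ => x ^ (2 * T) ≤ b ^ k) ?_ (fun x hx y hy => hsup x y hx hy)
      (fun i _ => pow_le_of_natAbs _ _ _ (by push_cast; exact hfT (i + 1) (by omega)))
    have : (⊥ : ℕ) ^ (2 * T) ≤ 1 ^ (2 * T) := Nat.pow_le_pow_left (by simp) _
    exact this.trans hone
  have hfH : ∀ i, 1 ≤ i → |f.coeff i| ≤ (H : ℤ) := by
    intro i hi
    rcases Nat.lt_or_ge D i with h | h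
    · rw [coeff_eq_zero_of_natDegree_lt (lt_of_le_of_lt hfD h), abs_zero]
      positivity
    · have h1 : (f.coeff i).natAbs ≤ H := by
        have h2 := Finset.le_sup (f := fun i => (f.coeff (i + 1)).natAbs)
          (mem_range.mpr (by omega : i - 1 < D + 1))
        simp only [Nat.sub_add_cancel hi] at h2
        exact h2.trans le_sup_left
      rw [← Int.natCast_natAbs]
      exact_mod_cast h1
  have hsmall : (H : ℝ) ^ T / (b : ℝ) ^ k ≤ δ := by
    have hBpos : (0 : ℝ) < (b : ℝ) ^ k := by positivity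
    have h1 : ((H : ℝ) ^ T) ^ 2 ≤ (b : ℝ) ^ k := by
      rw [← pow_mul, mul_comm T 2]
      exact_mod_cast hHT
    have h2 : (1 / δ) ^ 2 ≤ (b : ℝ) ^ k := hk₀.le.trans (pow_le_pow_right₀ hb1.le hk)
    have h3 : ((H : ℝ) ^ T / (b : ℝ) ^ k) ^ 2 ≤ δ ^ 2 := by
      rw [div_pow, div_le_iff₀ (by positivity)]
      have h4 : 1 ≤ δ ^ 2 * (b : ℝ) ^ k := by
        have := mul_le_mul_of_nonneg_left h2 (sq_nonneg δ)
        have h5 : δ ^ 2 * (1 / δ) ^ 2 = 1 := by field_simp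
        linarith
      calc ((H : ℝ) ^ T) ^ 2 ≤ 1 * (b : ℝ) ^ k := by linarith
        _ ≤ (δ ^ 2 * (b : ℝ) ^ k) * (b : ℝ) ^ k := mul_le_mul_of_nonneg_right h4 hBpos.le
        _ = δ ^ 2 * ((b : ℝ) ^ k) ^ 2 := by ring
    exact le_of_sq_le_sq h3 hδ.le
  have hαd' : α ^ d = (((f.map (Int.castRingHom ℚ)).eval (((b ^ k : ℕ) : ℚ)⁻¹) : ℚ) : ℝ) := by
    rw [hαd, cast_eval]
    push_cast
    rfl
  obtain ⟨J, z, h1, h2⟩ := hmain k f H hfD hf0 hH1 hfH (fun g hg => hnp ⟨g, hg⟩) hsmall α hα hαd'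
  have e : (b : ℝ) ^ J * α = (b : ℝ) ^ ((J : ℤ) + m) * ∑' n, (ε n : ℝ) / (b : ℝ) ^ n := by
    rw [hcon, zpow_add₀ (by positivity), zpow_natCast]
    ring
  rw [e] at h1 h2
  exact digits_gap b (by omega) ε hε _ z h1 h2

/-- `1 + e X^d` is not a `d`-th power -/
lemma not_pow (d : ℕ) (hd : 2 ≤ d) (e : ℚ) (he : e ≠ 0) (g : ℚ[X]) : g ^ d ≠ 1 + C e * X ^ d := by
  intro h
  have hdeg : (1 + C e * X ^ d : ℚ[X]).natDegree = d := by
    have h1 : (1 + C e * X ^ d : ℚ[X]) = C e * X ^ d + C 1 := by rw [C_1]; ring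
    rw [h1, natDegree_add_C, natDegree_C_mul_X_pow _ _ he]
  have hg1 : g.natDegree = 1 := by
    have h1 : (g ^ d).natDegree = d * g.natDegree := natDegree_pow g d
    rw [h, hdeg] at h1
    have h2 : d * 1 = d * g.natDegree := by rw [mul_one]; exact h1
    exact (Nat.eq_of_mul_eq_mul_left (by omega) h2).symm
  have hg : g = C (g.coeff 0) + C (g.coeff 1) * X ^ 1 := by
    rw [pow_one, add_comm]
    exact eq_X_add_C_of_natDegree_le_one hg1.le
  have h0 : g.coeff 0 ^ d = 1 := by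
    have h1 := congrArg (fun q => coeff q 0) h
    simp only [coeff_pow_zero, coeff_add, coeff_one_zero, coeff_C_mul, coeff_X_pow] at h1
    rw [if_neg (by omega)] at h1
    simpa using h1
  have hc0 : g.coeff 0 ≠ 0 := by
    intro h1
    rw [h1, zero_pow (by omega)] at h0
    exact zero_ne_one h0
  have h1 : (d : ℚ) * g.coeff 0 ^ (d - 1) * g.coeff 1 = 0 := by
    have h2 := (pow_add_high (C (g.coeff 0)) (g.coeff 1) 1 d le_rfl).2
    rw [← hg, h, ← C_pow, coeff_C, if_neg (by norm_num), coeff_C_zero, zero_add, coeff_add, coeff_one,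
      if_neg (by norm_num), coeff_C_mul, coeff_X_pow, if_neg (by omega)] at h2
    simpa using h2.symm
  have h2 : g.coeff 1 = 0 := by
    have h3 : (d : ℚ) * g.coeff 0 ^ (d - 1) ≠ 0 := by
      have : (d : ℚ) ≠ 0 := by exact_mod_cast (by omega : d ≠ 0)
      positivity
    exact (mul_eq_zero.mp h1).resolve_left h3
  rw [h2] at hg
  rw [hg] at hg1
  simp at hg1

theorem integers (b d : ℕ) (hb : 3 ≤ b) (hd : 2 ≤ d) :
    ∃ T k₀ : ℕ, ∀ k : ℕ, k₀ ≤ k → ∀ e : ℤ, e ≠ 0 → |e| ^ T ≤ (b : ℤ) ^ k →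
      ∀ α : ℝ, 0 < α → α ^ d = (b : ℝ) ^ (d * k) + e →
        ∀ (m : ℤ) (ε : ℕ → ℕ), (∀ n, ε n ≤ b - 2) →
          α ≠ (b : ℝ) ^ m * ∑' n, (ε n : ℝ) / (b : ℝ) ^ n := by
  obtain ⟨T, k₀, hmain⟩ := family b d 1 d hb (by omega) le_rfl
  refine ⟨T, k₀, ?_⟩
  intro k hk e he heT α hα hαd m ε hε hcon
  have hb0 : (b : ℝ) ≠ 0 := by
    have : (b : ℕ) ≠ 0 := by omega
    exact_mod_cast this
  have hbp : (0 : ℝ) < b := by positivity
  set f : ℤ[X] := C e * X ^ d + C 1 with hf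
  have hco : ∀ i, f.coeff i = (if i = d then e else 0) + if i = 0 then 1 else 0 := by
    intro i
    rw [hf, coeff_add, coeff_C_mul, coeff_X_pow, coeff_C]
    simp
  have hone : (1 : ℤ) ≤ (b : ℤ) ^ k := by
    have : (1 : ℤ) ≤ (b : ℤ) := by exact_mod_cast (by omega : 1 ≤ b)
    exact one_le_pow₀ this
  refine hmain k hk f ?_ ?_ ?_ ?_ (α / (b : ℝ) ^ k) (by positivity) ?_ (m - k) ε hε ?_
  · rw [hf, natDegree_add_C]
    exact natDegree_C_mul_X_pow_le _ _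
  · rw [hco, if_neg (by omega), if_pos rfl]; simp
  · intro i hi
    rw [hco, if_neg (by omega : i ≠ 0), add_zero]
    split_ifs with h
    · exact heT
    · rcases Nat.eq_zero_or_pos T with h0 | h0
      · rw [h0, pow_zero]; exact hone
      · rw [abs_zero, zero_pow (by omega)]
        linarith
  · rintro ⟨g, hg⟩
    have h1 : f.map (Int.castRingHom ℚ) = 1 + C (e : ℚ) * X ^ d := by
      rw [hf, Polynomial.map_add, Polynomial.map_mul, Polynomial.map_C, Polynomial.map_C,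
        Polynomial.map_pow, Polynomial.map_X, map_one, C_1, add_comm]
      rfl
    rw [h1] at hg
    exact not_pow d hd (e : ℚ) (by exact_mod_cast he) g hg
  · rw [div_pow, hαd, hf]
    rw [Polynomial.map_add, Polynomial.map_mul, Polynomial.map_C, Polynomial.map_C,
      Polynomial.map_pow, Polynomial.map_X, map_one, C_1, eval_add, eval_mul, eval_C, eval_pow, eval_X,
      eval_one]
    rw [inv_pow, ← pow_mul, mul_comm d k, add_div, div_self (by positivity)]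
    rw [div_eq_mul_inv, add_comm]
    rfl
  · rw [hcon, zpow_sub₀ hb0, zpow_natCast]
    ring

end Pool.Agent.Work.H55M
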