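import Pool.Agent.Work.MP_48678a_h55.Padic

/-!
Integrality, majorants and the remainder for the `d`-th root of a polynomial.
-/

namespace Pool.Agent.Work.H55M

open Finset Polynomial

/-! ### integrality -/

/-- exponents of the common denominator `(d c)^(Ex d n)` -/
def Ex (d : ℕ) : ℕ → ℕ
  | 0 => 0
  | n + 1 => d * Ex d n + d

lemma Ex_mono (d : ℕ) (hd : 1 ≤ d) : Monotone (Ex d) := by
  refine monotone_nat_of_le_succ fun n => ?_
  rw [Ex]
  exact (Nat.le_mul_of_pos_left _ hd).trans (Nat.le_add_right _ _)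

lemma Y_int (d c : ℕ) (hd : 1 ≤ d) (hc : 1 ≤ c) (f : ℤ[X]) (n : ℕ) :
    ∃ g : ℤ[X], g.map (Int.castRingHom ℚ) =
      C (((d * c : ℕ) : ℚ) ^ (Ex d n)) * Y d c (f.map (Int.castRingHom ℚ)) n := by
  set F := f.map (Int.castRingHom ℚ) with hF
  have hd0 : (d : ℚ) ≠ 0 := by exact_mod_cast (by omega : d ≠ 0)
  have hc0 : (c : ℚ) ≠ 0 := by exact_mod_cast (by omega : c ≠ 0)
  induction n with
  | zero =>
    refine ⟨C (c : ℤ), ?_⟩
    rw [Polynomial.map_C, Ex, pow_zero, C_1, one_mul, Y]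
    simp
  | succ n ih =>
    obtain ⟨g, hg⟩ := ih
    set S : ℕ := d * c with hS
    have hle : Ex d n ≤ Ex d (n + 1) := Ex_mono d hd (Nat.le_succ n)
    set w : ℤ := (d : ℤ) ^ (d - 1) * c * ((S : ℤ) ^ (d * Ex d n) * f.coeff (n + 1) -
      (g ^ d).coeff (n + 1)) with hw
    refine ⟨C ((S : ℤ) ^ (Ex d (n + 1) - Ex d n)) * g + C w * X ^ (n + 1), ?_⟩
    have hgd : ((g ^ d).coeff (n + 1) : ℚ) = (S : ℚ) ^ (d * Ex d n) * ((Y d c F n) ^ d).coeff (n + 1) := by
      have h1 : (g ^ d).map (Int.castRingHom ℚ) =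
          C ((S : ℚ) ^ (d * Ex d n)) * (Y d c F n) ^ d := by
        rw [Polynomial.map_pow, hg, mul_pow, ← C_pow, ← pow_mul, mul_comm (Ex d n) d]
      have := congrArg (fun q => coeff q (n + 1)) h1
      simp only [coeff_map, coeff_C_mul] at this
      exact this
    have hwq : ((w : ℤ) : ℚ) = (S : ℚ) ^ (Ex d (n + 1)) * ya d c F (n + 1) := by
      rw [ya_succ, hw]
      push_cast
      rw [hgd]
      have hFc : F.coeff (n + 1) = (f.coeff (n + 1) : ℚ) := by rw [hF, coeff_map]; rfl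
      rw [hFc]
      have e1 : (S : ℚ) ^ (Ex d (n + 1)) = (S : ℚ) ^ (d * Ex d n) * ((d : ℚ) ^ (d - 1) * c *
          (d * (c : ℚ) ^ (d - 1))) := by
        rw [Ex, pow_add, hS]
        push_cast
        congr 1
        rw [mul_pow]
        obtain ⟨e, he⟩ : ∃ e, d = e + 1 := ⟨d - 1, by omega⟩
        rw [he]
        simp only [Nat.add_sub_cancel, pow_succ]
        ring
      rw [e1]
      field_simp
    rw [Polynomial.map_add, Polynomial.map_mul, Polynomial.map_mul, Polynomial.map_C,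
      Polynomial.map_C, Polynomial.map_pow, Polynomial.map_X, hg]
    have e2 : (Int.castRingHom ℚ) w = (S : ℚ) ^ (Ex d (n + 1)) * ya d c F (n + 1) := hwq
    have e3 : (Int.castRingHom ℚ) ((S : ℤ) ^ (Ex d (n + 1) - Ex d n)) * (S : ℚ) ^ (Ex d n) =
        (S : ℚ) ^ (Ex d (n + 1)) := by
      rw [map_pow, ← Nat.sub_add_cancel hle, Nat.add_sub_cancel, pow_add]
      simp
    rw [e2, ← mul_assoc, ← C_mul, e3, C_mul, Y, ← ya_succ]
    ring

lemma ya_int (d c : ℕ) (hd : 1 ≤ d) (hc : 1 ≤ c) (f : ℤ[X]) (n : ℕ) :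
    ∃ z : ℤ, ((d * c : ℕ) : ℚ) ^ (Ex d n) * ya d c (f.map (Int.castRingHom ℚ)) n = z := by
  obtain ⟨g, hg⟩ := Y_int d c hd hc f n
  refine ⟨g.coeff n, ?_⟩
  have := congrArg (fun q => coeff q n) hg
  simp only [coeff_map, coeff_C_mul] at this
  exact this.symm

/-- clearing denominators of the value of a partial sum at `1/B` -/
lemma Y_eval_int (d c : ℕ) (hd : 1 ≤ d) (hc : 1 ≤ c) (f : ℤ[X]) (n B : ℕ) (hB : 0 < B) :
    ∃ z : ℤ, ((d * c : ℕ) : ℚ) ^ (Ex d n) * ((B : ℚ) ^ n *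
      (Y d c (f.map (Int.castRingHom ℚ)) n).eval ((B : ℚ)⁻¹)) = z := by
  obtain ⟨g, hg⟩ := Y_int d c hd hc f n
  set F := f.map (Int.castRingHom ℚ) with hF
  have hB0 : (B : ℚ) ≠ 0 := by exact_mod_cast hB.ne'
  refine ⟨∑ i ∈ range (n + 1), g.coeff i * (B : ℤ) ^ (n - i), ?_⟩
  have hco : ∀ i, (g.coeff i : ℚ) = ((d * c : ℕ) : ℚ) ^ (Ex d n) * (Y d c F n).coeff i := by
    intro i
    have := congrArg (fun q => coeff q i) hg
    simp only [coeff_map, coeff_C_mul] at this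
    exact this
  rw [eval_eq_sum_range' (lt_of_le_of_lt (Y_natDegree d c F n) (Nat.lt_succ_self n)),
    Finset.mul_sum, Finset.mul_sum]
  push_cast
  refine Finset.sum_congr rfl fun i hi => ?_
  rw [hco i]
  have hi' : i ≤ n := by rw [mem_range] at hi; omega
  have e : (B : ℚ) ^ n * (B : ℚ)⁻¹ ^ i = (B : ℚ) ^ (n - i) := by
    rw [inv_pow, pow_sub₀ _ hB0 hi']
  rw [← e]
  push_cast
  ring

/-! ### majorants -/

/-- majorant polynomials -/
noncomputable def U (d c : ℕ) : ℕ → ℚ[X]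
  | 0 => C (c : ℚ)
  | n + 1 => U d c n + C (1 + ((U d c n) ^ d).coeff (n + 1)) * X ^ (n + 1)

lemma U_nonneg (d c n : ℕ) : ∀ i, 0 ≤ (U d c n).coeff i := by
  induction n with
  | zero => intro i; rw [U, coeff_C]; split_ifs <;> positivity
  | succ n ih =>
    intro i
    rw [U, coeff_add, coeff_C_mul, coeff_X_pow]
    have h1 := ih i
    have h2 := pow_coeff_nonneg (U d c n) ih d (n + 1)
    split_ifs
    · linarith
    · linarith

lemma maj_pow (P Q : ℚ[X]) (H : ℚ) (h : ∀ i, |P.coeff i| ≤ Q.coeff i * H ^ i) (d : ℕ) :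
    ∀ i, |(P ^ d).coeff i| ≤ (Q ^ d).coeff i * H ^ i := by
  induction d with
  | zero =>
    intro i
    rw [pow_zero, pow_zero, coeff_one]
    split_ifs with h0
    · subst h0; simp
    · simp
  | succ d ih =>
    intro i
    rw [pow_succ, pow_succ, coeff_mul, coeff_mul, Finset.sum_mul]
    refine (Finset.abs_sum_le_sum_abs _ _).trans (Finset.sum_le_sum fun x hx => ?_)
    have hx' : x.1 + x.2 = i := by simpa using hx
    rw [abs_mul, ← hx', pow_add]
    calc |(P ^ d).coeff x.1| * |P.coeff x.2| ≤ ((Q ^ d).coeff x.1 * H ^ x.1) * (Q.coeff x.2 * H ^ x.2) :=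
          mul_le_mul (ih _) (h _) (abs_nonneg _) ((abs_nonneg _).trans (ih _))
      _ = _ := by ring

lemma Y_maj (d c : ℕ) (hd : 1 ≤ d) (hc : 1 ≤ c) (F : ℚ[X]) (H : ℚ) (hH : 1 ≤ H)
    (hF : ∀ i, 1 ≤ i → |F.coeff i| ≤ H) (n : ℕ) :
    ∀ i, |(Y d c F n).coeff i| ≤ (U d c n).coeff i * H ^ i := by
  have hd1 : (1 : ℚ) ≤ d := by exact_mod_cast hd
  have hc1 : (1 : ℚ) ≤ c := by exact_mod_cast hc
  have hdc : (1 : ℚ) ≤ d * (c : ℚ) ^ (d - 1) := by
    have := one_le_pow₀ (n := d - 1) hc1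
    nlinarith
  induction n with
  | zero =>
    intro i
    rw [Y, U, coeff_C]
    split_ifs with h0
    · subst h0
      rw [pow_zero, mul_one, abs_of_nonneg (by positivity)]
    · simp
  | succ n ih =>
    intro i
    rw [Y, U, coeff_add, coeff_add, coeff_C_mul, coeff_C_mul, coeff_X_pow]
    split_ifs with h0
    · subst h0
      have h1 : |(Y d c F n).coeff (n + 1)| ≤ (U d c n).coeff (n + 1) * H ^ (n + 1) := ih (n + 1)
      have h2 := maj_pow _ _ H ih d (n + 1)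
      have h3 := hF (n + 1) (by omega)
      have hHn : H ≤ H ^ (n + 1) := le_self_pow₀ hH (by omega)
      have h4 : |(F.coeff (n + 1) - ((Y d c F n) ^ d).coeff (n + 1)) / (d * (c : ℚ) ^ (d - 1))| ≤
          (1 + ((U d c n) ^ d).coeff (n + 1)) * H ^ (n + 1) := by
        rw [abs_div, abs_of_pos (show 0 < (d : ℚ) * (c : ℚ) ^ (d - 1) by linarith)]
        calc _ ≤ |F.coeff (n + 1) - ((Y d c F n) ^ d).coeff (n + 1)| :=
              div_le_self (abs_nonneg _) hdc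
          _ ≤ |F.coeff (n + 1)| + |((Y d c F n) ^ d).coeff (n + 1)| := abs_sub _ _
          _ ≤ H ^ (n + 1) + ((U d c n) ^ d).coeff (n + 1) * H ^ (n + 1) := by linarith
          _ = _ := by ring
      rw [mul_one, mul_one]
      refine (abs_add_le _ _).trans ?_
      rw [add_mul]
      exact add_le_add h1 h4
    · rw [mul_zero, mul_zero, add_zero, add_zero]
      exact ih i

/-- constants for the remainder -/
noncomputable def K1 (d c D n : ℕ) : ℚ := ∑ i ∈ range (d * n + D + 1), (((U d c n) ^ d).coeff i + 1)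

noncomputable def K2 (d c n : ℕ) : ℚ := ∑ i ∈ range (n + 1), (U d c n).coeff i

lemma K1_nonneg (d c D n : ℕ) : 0 ≤ K1 d c D n := by
  unfold K1
  refine Finset.sum_nonneg fun i _ => ?_
  have := pow_coeff_nonneg (U d c n) (U_nonneg d c n) d i
  linarith

lemma K2_nonneg (d c n : ℕ) : 0 ≤ K2 d c n := by
  unfold K2
  exact Finset.sum_nonneg fun i _ => U_nonneg d c n i

/-- the value of the partial sum is at least `1/2` -/
lemma Y_eval_ge (d c : ℕ) (hd : 1 ≤ d) (hc : 1 ≤ c) (F : ℚ[X]) (H : ℚ) (hH : 1 ≤ H)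
    (hF : ∀ i, 1 ≤ i → |F.coeff i| ≤ H) (n : ℕ) (t : ℚ) (ht : 0 < t) (hHt : H * t ≤ 1)
    (hK : H * t * K2 d c n ≤ 1 / 2) : 1 / 2 ≤ (Y d c F n).eval t := by
  have hc1 : (1 : ℚ) ≤ c := by exact_mod_cast hc
  rw [eval_eq_sum_range' (lt_of_le_of_lt (Y_natDegree d c F n) (Nat.lt_succ_self n)),
    Finset.sum_range_succ', pow_zero, mul_one, Y_coeff_zero]
  have h1 : |∑ i ∈ range n, (Y d c F n).coeff (i + 1) * t ^ (i + 1)| ≤ H * t * K2 d c n := by
    have hm := Y_maj d c hd hc F H hH hF n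
    have hHt0 : 0 ≤ H * t := by positivity
    calc _ ≤ ∑ i ∈ range n, |(Y d c F n).coeff (i + 1) * t ^ (i + 1)| := Finset.abs_sum_le_sum_abs _ _
      _ ≤ ∑ i ∈ range n, H * t * (U d c n).coeff (i + 1) := by
          refine Finset.sum_le_sum fun i _ => ?_
          rw [abs_mul, abs_of_pos (pow_pos ht _)]
          calc _ ≤ (U d c n).coeff (i + 1) * H ^ (i + 1) * t ^ (i + 1) :=
                mul_le_mul_of_nonneg_right (hm _) (pow_pos ht _).le
            _ = (U d c n).coeff (i + 1) * (H * t) ^ (i + 1) := by rw [mul_pow]; ring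
            _ ≤ (U d c n).coeff (i + 1) * (H * t) := by
                refine mul_le_mul_of_nonneg_left ?_ (U_nonneg d c n _)
                exact pow_le_of_le_one hHt0 hHt (by omega)
            _ = _ := by ring
      _ = H * t * ∑ i ∈ range n, (U d c n).coeff (i + 1) := by rw [Finset.mul_sum]
      _ ≤ H * t * K2 d c n := by
          refine mul_le_mul_of_nonneg_left ?_ hHt0
          rw [K2, Finset.sum_range_succ']
          have := U_nonneg d c n 0
          linarith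
  have h2 := (abs_le.mp h1).1
  linarith

/-- the remainder of the `d`-th power -/
lemma Y_pow_rem (d c D : ℕ) (hd : 1 ≤ d) (hc : 1 ≤ c) (F : ℚ[X]) (h0 : F.coeff 0 = (c : ℚ) ^ d)
    (hD : F.natDegree ≤ D) (H : ℚ) (hH : 1 ≤ H) (hF : ∀ i, 1 ≤ i → |F.coeff i| ≤ H) (n : ℕ) (t : ℚ)
    (ht : 0 < t) (hHt : H * t ≤ 1) :
    |((Y d c F n).eval t) ^ d - F.eval t| ≤ K1 d c D n * (H * t) ^ (n + 1) := by
  set R : ℚ[X] := (Y d c F n) ^ d - F with hR
  have hev : ((Y d c F n).eval t) ^ d - F.eval t = R.eval t := by rw [hR, eval_sub, eval_pow]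
  have hlow : ∀ i ≤ n, R.coeff i = 0 := fun i hi => by
    rw [hR, coeff_sub, Y_spec d c hd hc F h0 n i hi, sub_self]
  have hdeg : R.natDegree ≤ d * n + D := by
    refine (natDegree_sub_le _ _).trans (max_le ?_ (hD.trans (Nat.le_add_left _ _)))
    exact (natDegree_pow_le.trans (Nat.mul_le_mul_left d (Y_natDegree d c F n))).trans
      (Nat.le_add_right _ _)
  have hHt0 : 0 ≤ H * t := by positivity
  rw [hev, eval_eq_sum_range' (lt_of_le_of_lt hdeg (Nat.lt_succ_self _)), K1, Finset.sum_mul]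
  refine (Finset.abs_sum_le_sum_abs _ _).trans (Finset.sum_le_sum fun i _ => ?_)
  have hUn := pow_coeff_nonneg (U d c n) (U_nonneg d c n) d i
  rcases Nat.lt_or_ge n i with hi | hi
  · have h1 : |R.coeff i| ≤ (((U d c n) ^ d).coeff i + 1) * H ^ i := by
      have h2 := maj_pow _ _ H (Y_maj d c hd hc F H hH hF n) d i
      have h3 := hF i (by omega)
      have hHn : H ≤ H ^ i := le_self_pow₀ hH (by omega)
      rw [hR, coeff_sub]
      calc _ ≤ |((Y d c F n) ^ d).coeff i| + |F.coeff i| := abs_sub _ _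
        _ ≤ ((U d c n) ^ d).coeff i * H ^ i + H ^ i := by linarith
        _ = _ := by ring
    rw [abs_mul, abs_of_pos (pow_pos ht _)]
    calc _ ≤ (((U d c n) ^ d).coeff i + 1) * H ^ i * t ^ i :=
          mul_le_mul_of_nonneg_right h1 (pow_pos ht _).le
      _ = (((U d c n) ^ d).coeff i + 1) * (H * t) ^ i := by rw [mul_pow]; ring
      _ ≤ _ := by
          refine mul_le_mul_of_nonneg_left ?_ (by linarith)
          exact pow_le_pow_of_le_one hHt0 hHt hi
  · rw [hlow i hi, zero_mul, abs_zero]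
    positivity

/-- the remainder -/
lemma Y_rem (d c D : ℕ) (hd : 1 ≤ d) (hc : 1 ≤ c) (F : ℚ[X]) (h0 : F.coeff 0 = (c : ℚ) ^ d)
    (hD : F.natDegree ≤ D) (H : ℚ) (hH : 1 ≤ H) (hF : ∀ i, 1 ≤ i → |F.coeff i| ≤ H) (n : ℕ) (t : ℚ)
    (ht : 0 < t) (hHt : H * t ≤ 1) (hK : H * t * K2 d c n ≤ 1 / 2) (α : ℝ) (hα : 0 < α)
    (hαd : α ^ d = ((F.eval t : ℚ) : ℝ)) :
    |(((Y d c F n).eval t : ℚ) : ℝ) - α| ≤ 2 ^ d * (K1 d c D n : ℝ) * ((H * t : ℚ) : ℝ) ^ (n + 1) := by
  have hge := Y_eval_ge d c hd hc F H hH hF n t ht hHt hK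
  have hrem := Y_pow_rem d c D hd hc F h0 hD H hH hF n t ht hHt
  set P : ℚ := (Y d c F n).eval t with hP
  have hge' : (1 / 2 : ℝ) ≤ (P : ℝ) := by
    have := (Rat.cast_le (K := ℝ)).mpr hge
    push_cast at this
    exact this
  have hrem' : |(P : ℝ) ^ d - α ^ d| ≤ (K1 d c D n : ℝ) * ((H * t : ℚ) : ℝ) ^ (n + 1) := by
    rw [hαd]
    exact_mod_cast hrem
  have hfac : (∑ i ∈ range d, (P : ℝ) ^ i * α ^ (d - 1 - i)) * ((P : ℝ) - α) = (P : ℝ) ^ d - α ^ d :=
    geom_sum₂_mul _ _ _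
  have hP0 : (0 : ℝ) < P := by linarith
  have hsum : (1 / 2 : ℝ) ^ d ≤ ∑ i ∈ range d, (P : ℝ) ^ i * α ^ (d - 1 - i) := by
    have h1 : (P : ℝ) ^ (d - 1) * α ^ (d - 1 - (d - 1)) ≤
        ∑ i ∈ range d, (P : ℝ) ^ i * α ^ (d - 1 - i) :=
      Finset.single_le_sum (f := fun i => (P : ℝ) ^ i * α ^ (d - 1 - i))
        (fun i _ => by positivity) (mem_range.mpr (by omega))
    rw [Nat.sub_self, pow_zero, mul_one] at h1
    calc (1 / 2 : ℝ) ^ d ≤ (1 / 2 : ℝ) ^ (d - 1) :=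
          pow_le_pow_of_le_one (by norm_num) (by norm_num) (Nat.sub_le _ _)
      _ ≤ (P : ℝ) ^ (d - 1) := pow_le_pow_left₀ (by norm_num) hge' _
      _ ≤ _ := h1
  have h2 : (1 / 2 : ℝ) ^ d * |(P : ℝ) - α| ≤ (K1 d c D n : ℝ) * ((H * t : ℚ) : ℝ) ^ (n + 1) := by
    refine le_trans ?_ hrem'
    rw [← hfac, abs_mul]
    refine mul_le_mul_of_nonneg_right (hsum.trans (le_abs_self _)) (abs_nonneg _)
  have h3 : (2 : ℝ) ^ d * ((1 / 2 : ℝ) ^ d * |(P : ℝ) - α|) = |(P : ℝ) - α| := by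
    rw [← mul_assoc, ← mul_pow]; norm_num
  rw [← h3, mul_assoc]
  exact mul_le_mul_of_nonneg_left h2 (by positivity)

end Pool.Agent.Work.H55M
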