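import Mathlib

/-!
Numbers with base `b` digits at most `b - 2`: no multiple by a power of `b` is slightly below an integer.
-/

namespace Pool.Agent.Work.H55M

open Finset

lemma digit_summable (b : ℕ) (hb : 2 ≤ b) (ε : ℕ → ℕ) (hε : ∀ n, ε n ≤ b - 2) :
    Summable (fun n => (ε n : ℝ) / (b : ℝ) ^ n) := by
  have hb1 : (1 : ℝ) < b := by exact_mod_cast (by omega : 1 < b)
  have hg : Summable (fun n : ℕ => (b : ℝ) * ((b : ℝ)⁻¹) ^ n) :=
    (summable_geometric_of_lt_one (by positivity) (inv_lt_one_of_one_lt₀ hb1)).mul_left _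
  refine Summable.of_nonneg_of_le (fun n => by positivity) (fun n => ?_) hg
  have h1 : (ε n : ℝ) ≤ b := by exact_mod_cast (hε n).trans (Nat.sub_le _ _)
  rw [inv_pow, ← div_eq_mul_inv]
  exact div_le_div_of_nonneg_right h1 (by positivity)

lemma tail_bound (b : ℕ) (hb : 2 ≤ b) (ε : ℕ → ℕ) (hε : ∀ n, ε n ≤ b - 2) :
    0 ≤ ∑' n, (ε n : ℝ) / (b : ℝ) ^ (n + 1) ∧
    ∑' n, (ε n : ℝ) / (b : ℝ) ^ (n + 1) ≤ 1 - 1 / ((b : ℝ) - 1) := by
  have hb1 : (1 : ℝ) < b := by exact_mod_cast (by omega : 1 < b)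
  have hb0 : (b : ℝ) ≠ 0 := by positivity
  have hg : HasSum (fun n : ℕ => ((b : ℝ) - 2) / b * ((b : ℝ)⁻¹) ^ n)
      (((b : ℝ) - 2) / b * (1 - (b : ℝ)⁻¹)⁻¹) :=
    (hasSum_geometric_of_lt_one (by positivity) (inv_lt_one_of_one_lt₀ hb1)).mul_left _
  have hval : ((b : ℝ) - 2) / b * (1 - (b : ℝ)⁻¹)⁻¹ = 1 - 1 / ((b : ℝ) - 1) := by
    have h1 : (b : ℝ) - 1 ≠ 0 := by linarith
    have h2 : 1 - (b : ℝ)⁻¹ = ((b : ℝ) - 1) / b := by field_simp
    rw [h2, inv_div]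
    field_simp
    ring
  have hle : ∀ n, (ε n : ℝ) / (b : ℝ) ^ (n + 1) ≤ ((b : ℝ) - 2) / b * ((b : ℝ)⁻¹) ^ n := by
    intro n
    have h1 : (ε n : ℝ) ≤ (b : ℝ) - 2 := by
      have h2 : ε n + 2 ≤ b := by have := hε n; omega
      have h3 : ((ε n + 2 : ℕ) : ℝ) ≤ b := by exact_mod_cast h2
      push_cast at h3
      linarith
    rw [inv_pow, ← div_eq_mul_inv, div_div, ← pow_succ']
    exact div_le_div_of_nonneg_right h1 (by positivity)
  have hs : Summable (fun n => (ε n : ℝ) / (b : ℝ) ^ (n + 1)) :=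
    Summable.of_nonneg_of_le (fun n => by positivity) hle hg.summable
  refine ⟨tsum_nonneg fun n => by positivity, ?_⟩
  rw [← hval, ← hg.tsum_eq]
  exact hs.tsum_le_tsum hle hg.summable

/-- no multiple by a power of `b` lies in `(z - 1/(b-1), z)` -/
lemma digits_gap (b : ℕ) (hb : 2 ≤ b) (ε : ℕ → ℕ) (hε : ∀ n, ε n ≤ b - 2) (e : ℤ) (z : ℤ)
    (h1 : (z : ℝ) - 1 / ((b : ℝ) - 1) < (b : ℝ) ^ e * ∑' n, (ε n : ℝ) / (b : ℝ) ^ n)
    (h2 : (b : ℝ) ^ e * ∑' n, (ε n : ℝ) / (b : ℝ) ^ n < z) : False := by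
  have hb1 : (1 : ℝ) < b := by exact_mod_cast (by omega : 1 < b)
  have hb0 : (b : ℝ) ≠ 0 := by positivity
  have hs := digit_summable b hb ε hε
  -- in both cases the number is `A + tail`
  have key : ∃ A : ℤ, (A : ℝ) ≤ (b : ℝ) ^ e * ∑' n, (ε n : ℝ) / (b : ℝ) ^ n ∧
      (b : ℝ) ^ e * ∑' n, (ε n : ℝ) / (b : ℝ) ^ n ≤ A + (1 - 1 / ((b : ℝ) - 1)) := by
    rcases le_or_gt 0 e with he | he
    · obtain ⟨m, rfl⟩ := Int.eq_ofNat_of_zero_le he
      have hsplit := hs.sum_add_tsum_nat_add (m + 1)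
      have htail := tail_bound b hb (fun n => ε (n + (m + 1))) (fun n => hε _)
      have e1 : (b : ℝ) ^ (m : ℤ) * ∑' n, (ε (n + (m + 1)) : ℝ) / (b : ℝ) ^ (n + (m + 1)) =
          ∑' n, (ε (n + (m + 1)) : ℝ) / (b : ℝ) ^ (n + 1) := by
        rw [← tsum_mul_left]
        refine tsum_congr fun n => ?_
        rw [zpow_natCast, show n + (m + 1) = (n + 1) + m by ring, pow_add (b : ℝ) (n + 1) m]
        field_simp
      have e2 : (b : ℝ) ^ (m : ℤ) * ∑ n ∈ range (m + 1), (ε n : ℝ) / (b : ℝ) ^ n =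
          ((∑ n ∈ range (m + 1), (ε n : ℤ) * (b : ℤ) ^ (m - n) : ℤ) : ℝ) := by
        rw [Finset.mul_sum]
        push_cast
        refine Finset.sum_congr rfl fun n hn => ?_
        have hn' : n ≤ m := by rw [mem_range] at hn; omega
        rw [zpow_natCast, pow_sub₀ _ hb0 hn']
        field_simp
      refine ⟨∑ n ∈ range (m + 1), (ε n : ℤ) * (b : ℤ) ^ (m - n), ?_, ?_⟩
      · rw [← hsplit, mul_add, e2]
        have e1' := e1
        rw [e1']
        linarith [htail.1]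
      · rw [← hsplit, mul_add, e2]
        rw [e1]
        linarith [htail.2]
    · refine ⟨0, ?_, ?_⟩
      · push_cast
        have : 0 ≤ ∑' n, (ε n : ℝ) / (b : ℝ) ^ n := tsum_nonneg fun n => by positivity
        positivity
      · have htail := tail_bound b hb ε hε
        have e1 : ∑' n, (ε n : ℝ) / (b : ℝ) ^ (n + 1) = (b : ℝ) ^ (-1 : ℤ) *
            ∑' n, (ε n : ℝ) / (b : ℝ) ^ n := by
          rw [← tsum_mul_left]
          refine tsum_congr fun n => ?_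
          rw [pow_succ, zpow_neg_one]
          field_simp
        have h0 : 0 ≤ ∑' n, (ε n : ℝ) / (b : ℝ) ^ n := tsum_nonneg fun n => by positivity
        have hz : (b : ℝ) ^ e ≤ (b : ℝ) ^ (-1 : ℤ) := zpow_le_zpow_right₀ hb1.le (by omega)
        have h3 := mul_le_mul_of_nonneg_right hz h0
        rw [← e1] at h3
        push_cast
        linarith [htail.2]
  obtain ⟨A, hA1, hA2⟩ := key
  have hAz : A < z := by exact_mod_cast lt_of_le_of_lt hA1 h2
  have hAz' : (A : ℝ) + 1 ≤ z := by exact_mod_cast hAz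
  linarith

end Pool.Agent.Work.H55M
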