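import Pool.Agent.Work.MP_48678a_h55.Records
import Pool.Agent.Work.MP_48678a_h55.Digits

/-!
Some multiple `b^J α` of the `d`-th root `α` is slightly below an integer.
-/

namespace Pool.Agent.Work.H55M

open Finset Polynomial

/-- clearing the part of the denominator which divides a power of `b` -/
lemma clear (b d c : ℕ) (hd : 1 ≤ d) (hc : 1 ≤ c) (u σ v e0 : ℕ) (hS : d * c = u * σ)
    (huv : b ^ e0 = u * v) (f : ℤ[X]) (N B : ℕ) (hB : 0 < B) :
    ∃ z : ℤ, ((σ : ℚ) ^ (Ex d N)) * (((b : ℚ) ^ e0) ^ (Ex d N) * ((B : ℚ) ^ N *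
      (Y d c (f.map (Int.castRingHom ℚ)) N).eval ((B : ℚ)⁻¹))) = z := by
  obtain ⟨z, hz⟩ := Y_eval_int d c hd hc f N B hB
  refine ⟨(v : ℤ) ^ (Ex d N) * z, ?_⟩
  have h1 : ((b : ℚ) ^ e0) = u * v := by exact_mod_cast huv
  have h2 : ((d * c : ℕ) : ℚ) = u * σ := by exact_mod_cast hS
  push_cast
  rw [← hz, h1, h2]
  ring

lemma den_dvd_of_mul (x : ℚ) (n : ℕ) (hn : 0 < n) (z : ℤ) (h : (n : ℚ) * x = z) : x.den ∣ n := by
  have hn0 : (n : ℚ) ≠ 0 := by exact_mod_cast hn.ne'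
  have hx : x = (z : ℚ) / ((n : ℤ) : ℚ) := by
    rw [← h]; push_cast; field_simp
  have := Rat.den_dvd z (n : ℤ)
  rw [Rat.divInt_eq_div, ← hx] at this
  exact_mod_cast this

section
variable {p : ℕ} [hp : Fact p.Prime]

lemma norm_clear (b e0 E B N : ℕ) (P : ℚ) (hb : ¬ p ∣ b) (hB : ¬ p ∣ B) :
    ‖((((b : ℚ) ^ e0) ^ E * ((B : ℚ) ^ N * P) : ℚ) : ℚ_[p])‖ = ‖(P : ℚ_[p])‖ := by
  have h1 : ‖((b : ℕ) : ℚ_[p])‖ = 1 :=
    Padic.norm_natCast_eq_one_iff.mpr ((Nat.Prime.coprime_iff_not_dvd hp.out).mpr hb)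
  have h2 : ‖((B : ℕ) : ℚ_[p])‖ = 1 :=
    Padic.norm_natCast_eq_one_iff.mpr ((Nat.Prime.coprime_iff_not_dvd hp.out).mpr hB)
  push_cast
  rw [norm_mul, norm_mul, norm_pow, norm_pow, norm_pow, h1, h2]
  simp

end

/-- real numbers: final estimates in the case of unbounded denominators -/
lemma real_caseU (b S w Q M V : ℝ) (x z' θ : ℝ) (hb : 2 ≤ b) (hSE : 1 ≤ S)
    (hw1 : 1 ≤ w) (hwM : w ≤ M) (hQ1 : 0 < Q) (hQS : Q ≤ S) (hQV : V ≤ Q) (hV : 4 * M * (b - 1) ≤ V)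
    (hx : x = z' - w / Q) (hθ : |θ| ≤ 1 / (8 * (b - 1) * S)) :
    z' - 1 / (b - 1) < x + θ ∧ x + θ < z' := by
  have hb1 : 0 < b - 1 := by linarith
  have h1 : 1 / S ≤ w / Q := div_le_div₀ (by linarith) hw1 hQ1 hQS
  have h2 : w / Q ≤ 1 / (4 * (b - 1)) := by
    rw [div_le_div_iff₀ hQ1 (by positivity)]
    have : w * (4 * (b - 1)) ≤ M * (4 * (b - 1)) := mul_le_mul_of_nonneg_right hwM (by positivity)
    linarith
  have h3 : 1 / (8 * (b - 1) * S) < 1 / S := by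
    apply one_div_lt_one_div_of_lt (by linarith)
    have : 1 * S < 8 * (b - 1) * S := mul_lt_mul_of_pos_right (by linarith) (by linarith)
    linarith
  have h4 : 1 / (8 * (b - 1) * S) ≤ 1 / (8 * (b - 1)) := by
    apply one_div_le_one_div_of_le (by positivity)
    have : 8 * (b - 1) * 1 ≤ 8 * (b - 1) * S := mul_le_mul_of_nonneg_left hSE (by positivity)
    linarith
  have h5 : 1 / (4 * (b - 1)) = (1 / (b - 1)) / 4 := by field_simp
  have h6 : 1 / (8 * (b - 1)) = (1 / (b - 1)) / 8 := by field_simp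
  have h7 : 0 < 1 / (b - 1) := by positivity
  have h8 := abs_le.mp hθ
  rw [h5] at h2
  rw [h6] at h4
  constructor
  · rw [hx]; linarith [h8.1]
  · rw [hx]; linarith [h8.2]

/-- the case of integral coefficients -/
lemma real_caseI (b S b0 B a θ κ : ℝ) (z x : ℝ) (hb : 2 ≤ b) (hS : 1 ≤ S) (hb0 : 0 < b0)
    (hB : 1 ≤ B) (ha : a ≤ -(1 / S)) (hκ : 0 ≤ κ)
    (hκ2 : b0 * κ ≤ 1 / (8 * (b - 1) * S)) (hb01 : 1 ≤ b0) (hθ : |θ| ≤ κ) (ha2 : |a| / B ≤ κ)
    (hx : x = z + b0 / B * (a + θ)) : z - 1 / (b - 1) < x ∧ x < z := by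
  have hb1 : 0 < b - 1 := by linarith
  have h3 : 1 / (8 * (b - 1) * S) < 1 / S := by
    apply one_div_lt_one_div_of_lt (by linarith)
    have : 1 * S < 8 * (b - 1) * S := mul_lt_mul_of_pos_right (by linarith) (by linarith)
    linarith
  have h4 : 1 / (8 * (b - 1) * S) ≤ 1 / (8 * (b - 1)) := by
    apply one_div_le_one_div_of_le (by positivity)
    have : 8 * (b - 1) * 1 ≤ 8 * (b - 1) * S := mul_le_mul_of_nonneg_left hS (by positivity)
    linarith
  have h6 : 1 / (8 * (b - 1)) = (1 / (b - 1)) / 8 := by field_simp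
  have h7 : 0 < 1 / (b - 1) := by positivity
  have hκ3 : κ ≤ b0 * κ := by
    have := mul_le_mul_of_nonneg_right hb01 hκ
    linarith
  have h8 := abs_le.mp hθ
  have hneg : a + θ < 0 := by linarith [h8.2]
  have hpos : 0 < b0 / B := by positivity
  constructor
  · rw [hx]
    have h9 : -(|a| + κ) ≤ a + θ := by linarith [h8.1, neg_abs_le a]
    have h10 := mul_le_mul_of_nonneg_left h9 hpos.le
    have h11 : b0 / B * -(|a| + κ) = -(b0 * (|a| / B) + b0 * κ / B) := by ring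
    rw [h11] at h10
    have h12 : b0 * (|a| / B) ≤ b0 * κ := mul_le_mul_of_nonneg_left ha2 hb0.le
    have h13 : b0 * κ / B ≤ b0 * κ := div_le_self (by positivity) hB
    rw [h6] at h4
    linarith
  · rw [hx]
    have := mul_neg_of_pos_of_neg hpos hneg
    linarith

/-- **some `b^J α` is slightly below an integer** -/
theorem below_integer (b d c D : ℕ) (hb : 2 ≤ b) (hd : 1 ≤ d) (hc : 1 ≤ c) :
    ∃ (T : ℕ) (δ : ℝ), 0 < δ ∧ ∀ (k : ℕ) (f : ℤ[X]) (H : ℕ), f.natDegree ≤ D →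
      f.coeff 0 = (c : ℤ) ^ d → 1 ≤ H → (∀ i, 1 ≤ i → |f.coeff i| ≤ (H : ℤ)) →
      (∀ g : ℚ[X], g ^ d ≠ f.map (Int.castRingHom ℚ)) →
      (H : ℝ) ^ T / (b : ℝ) ^ k ≤ δ → ∀ α : ℝ, 0 < α →
      α ^ d = (((f.map (Int.castRingHom ℚ)).eval (((b ^ k : ℕ) : ℚ)⁻¹) : ℚ) : ℝ) →
      ∃ (J : ℕ) (z : ℤ), (z : ℝ) - 1 / ((b : ℝ) - 1) < (b : ℝ) ^ J * α ∧ (b : ℝ) ^ J * α < z := by
  classical
  have hb1 : 1 ≤ b := by omega
  have hS1 : 1 ≤ d * c := Nat.mul_pos hd hc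
  obtain ⟨u, σ, e0, hS, hub, hcop⟩ := split b hb1 (d * c) hS1
  obtain ⟨v, huv⟩ := hub
  have hσ0 : 0 < σ := by
    rcases Nat.eq_zero_or_pos σ with h | h
    · rw [h, mul_zero] at hS; omega
    · exact h
  have hu0 : 0 < u := by
    rcases Nat.eq_zero_or_pos u with h | h
    · rw [h, zero_mul] at hS; omega
    · exact h
  obtain ⟨M, m0, hM1, hm0, horb⟩ := orbit (by omega : 1 < b) hσ0 hcop
  set V : ℕ := 4 * M * (b - 1) with hV
  set L : ℕ := d * D with hL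
  set Nm : ℕ := L * d ^ V with hNm
  have hLN : L ≤ Nm := Nat.le_mul_of_pos_right L (pow_pos hd V)
  set Em : ℕ := Ex d Nm with hEm
  set S : ℕ := d * c with hSdef
  set Jm : ℕ := m0 * S ^ Em + e0 * Em with hJm
  set Kc : ℝ := ∑ n ∈ range (Nm + 1),
    ((2 : ℝ) ^ d * (K1 d c D n : ℝ) + (K2 d c n : ℝ) + ((U d c n).coeff n : ℝ)) with hKc
  have hK1 : ∀ n, (0 : ℝ) ≤ K1 d c D n := fun n => by exact_mod_cast K1_nonneg d c D n
  have hK2 : ∀ n, (0 : ℝ) ≤ K2 d c n := fun n => by exact_mod_cast K2_nonneg d c n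
  have hK3 : ∀ n, (0 : ℝ) ≤ ((U d c n).coeff n : ℝ) := fun n => by exact_mod_cast U_nonneg d c n n
  have hKn : ∀ n, n ≤ Nm → (2 : ℝ) ^ d * (K1 d c D n : ℝ) + (K2 d c n : ℝ) +
      ((U d c n).coeff n : ℝ) ≤ Kc := by
    intro n hn
    rw [hKc]
    exact Finset.single_le_sum (f := fun n => (2 : ℝ) ^ d * (K1 d c D n : ℝ) + (K2 d c n : ℝ) +
      ((U d c n).coeff n : ℝ)) (fun i _ => by
        have h1 := hK1 i
        have h2 := hK2 i
        have h3 := hK3 i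
        positivity) (mem_range.mpr (by omega))
  have hKc0 : 0 ≤ Kc := by
    have := hKn 0 (Nat.zero_le _)
    have h1 := hK1 0
    have h2 := hK2 0
    have h3 := hK3 0
    have h4 : 0 ≤ (2 : ℝ) ^ d * (K1 d c D 0 : ℝ) := by positivity
    linarith
  have hbR : (2 : ℝ) ≤ b := by exact_mod_cast hb
  have hb1R : (0 : ℝ) < (b : ℝ) - 1 := by linarith
  have hSR : (1 : ℝ) ≤ (S : ℝ) := by exact_mod_cast hS1
  have hSE : (1 : ℝ) ≤ (S : ℝ) ^ Em := one_le_pow₀ hSR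
  have hbJ : (1 : ℝ) ≤ (b : ℝ) ^ Jm := one_le_pow₀ (by linarith)
  refine ⟨Nm + 1, 1 / (8 * ((b : ℝ) - 1) * (S : ℝ) ^ Em) / ((b : ℝ) ^ Jm * (Kc + 1)),
    by positivity, ?_⟩
  intro k f H hfD hf0 hH hfH hnp hδ α hα hαd
  set δ : ℝ := 1 / (8 * ((b : ℝ) - 1) * (S : ℝ) ^ Em) / ((b : ℝ) ^ Jm * (Kc + 1)) with hδdef
  have hδ0 : 0 < δ := by positivity
  -- `b^Jm (Kc + 1) δ = 1/(8 (b-1) S^Em)`
  have hδ1 : (b : ℝ) ^ Jm * ((Kc + 1) * δ) = 1 / (8 * ((b : ℝ) - 1) * (S : ℝ) ^ Em) := by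
    rw [hδdef]; field_simp
  have hsmall : 1 / (8 * ((b : ℝ) - 1) * (S : ℝ) ^ Em) ≤ 1 / 8 := by
    apply one_div_le_one_div_of_le (by norm_num)
    have h1 : 8 * 1 ≤ 8 * ((b : ℝ) - 1) := by linarith
    calc (8 : ℝ) = 8 * 1 * 1 := by norm_num
      _ ≤ 8 * ((b : ℝ) - 1) * (S : ℝ) ^ Em := mul_le_mul h1 hSE (by norm_num) (by linarith)
  have hKδ : (Kc + 1) * δ ≤ 1 / 8 := by
    have h1 : (Kc + 1) * δ ≤ (b : ℝ) ^ Jm * ((Kc + 1) * δ) := by
      have : 0 ≤ (Kc + 1) * δ := by positivity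
      have := mul_le_mul_of_nonneg_right hbJ this
      linarith
    linarith
  have hKcδ : Kc * δ ≤ 1 / 8 := by
    have : Kc * δ ≤ (Kc + 1) * δ := mul_le_mul_of_nonneg_right (by linarith) hδ0.le
    linarith
  have hδ8 : δ ≤ 1 / 8 := by
    have : δ ≤ (Kc + 1) * δ := by
      have := mul_le_mul_of_nonneg_right (show 1 ≤ Kc + 1 by linarith) hδ0.le
      linarith
    linarith
  set B : ℕ := b ^ k with hB
  have hB0 : 0 < B := pow_pos (by omega) k
  have hBR : (1 : ℝ) ≤ (B : ℝ) := by exact_mod_cast hB0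
  have hBcast : (b : ℝ) ^ k = (B : ℝ) := by rw [hB]; push_cast; rfl
  rw [hBcast] at hδ
  have hHR : (1 : ℝ) ≤ (H : ℝ) := by exact_mod_cast hH
  have hHn : ∀ n, n ≤ Nm → (H : ℝ) ^ (n + 1) / B ≤ δ := by
    intro n hn
    refine le_trans (div_le_div_of_nonneg_right ?_ (by linarith)) hδ
    exact pow_le_pow_right₀ hHR (by omega)
  set F : ℚ[X] := f.map (Int.castRingHom ℚ) with hF
  have hF0 : F.coeff 0 = (c : ℚ) ^ d := by
    rw [hF, coeff_map, hf0]; push_cast; simp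
  have hFD : F.natDegree ≤ D := (natDegree_map_le).trans hfD
  have hFH : ∀ i, 1 ≤ i → |F.coeff i| ≤ (H : ℚ) := by
    intro i hi
    rw [hF, coeff_map]
    have := hfH i hi
    have h2 : ((|f.coeff i| : ℤ) : ℚ) ≤ ((H : ℤ) : ℚ) := by exact_mod_cast this
    rw [Int.cast_abs, Int.cast_natCast] at h2
    exact h2
  set t : ℚ := ((B : ℚ))⁻¹ with ht
  have ht0 : 0 < t := by rw [ht]; positivity
  have hHQ : (1 : ℚ) ≤ (H : ℚ) := by exact_mod_cast hH
  have hHtR : ((H * t : ℚ) : ℝ) = (H : ℝ) / B := by rw [ht]; push_cast; rw [div_eq_mul_inv]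
  have hHt1R : (H : ℝ) / B ≤ δ := by simpa using hHn 0 (Nat.zero_le _)
  have hHt1 : (H : ℚ) * t ≤ 1 := by
    have : ((H * t : ℚ) : ℝ) ≤ ((1 : ℚ) : ℝ) := by rw [hHtR]; push_cast; linarith
    exact_mod_cast this
  have hHtK : ∀ n, n ≤ Nm → (H : ℚ) * t * K2 d c n ≤ 1 / 2 := by
    intro n hn
    have h1 : ((H * t * K2 d c n : ℚ) : ℝ) ≤ ((1 / 2 : ℚ) : ℝ) := by
      rw [Rat.cast_mul, hHtR]
      have h2 := hKn n hn
      have h3 := hK1 n
      have h4 := hK3 n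
      have h5 : (K2 d c n : ℝ) ≤ Kc := by
        have : 0 ≤ (2 : ℝ) ^ d * (K1 d c D n : ℝ) := by positivity
        linarith
      calc (H : ℝ) / B * (K2 d c n : ℝ) ≤ δ * Kc :=
            mul_le_mul hHt1R h5 (hK2 n) hδ0.le
        _ ≤ ((1 / 2 : ℚ) : ℝ) := by push_cast; linarith
    exact_mod_cast h1
  -- remainder
  have hrem : ∀ n, n ≤ Nm → (B : ℝ) ^ n * |(((Y d c F n).eval t : ℚ) : ℝ) - α| ≤ Kc * δ := by
    intro n hn
    have h1 := Y_rem d c D hd hc F hF0 hFD H hHQ hFH n t ht0 hHt1 (hHtK n hn) α hα hαd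
    rw [hHtR] at h1
    have h2 : (B : ℝ) ^ n * (2 ^ d * (K1 d c D n : ℝ) * ((H : ℝ) / B) ^ (n + 1)) =
        2 ^ d * (K1 d c D n : ℝ) * ((H : ℝ) ^ (n + 1) / B) := by
      rw [div_pow, pow_succ (B : ℝ) n]
      field_simp
    calc _ ≤ (B : ℝ) ^ n * (2 ^ d * (K1 d c D n : ℝ) * ((H : ℝ) / B) ^ (n + 1)) :=
          mul_le_mul_of_nonneg_left h1 (by positivity)
      _ = 2 ^ d * (K1 d c D n : ℝ) * ((H : ℝ) ^ (n + 1) / B) := h2
      _ ≤ Kc * δ := by
          refine mul_le_mul ?_ (hHn n hn) (by positivity) hKc0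
          have h3 := hKn n hn
          have h4 := hK2 n
          have h5 := hK3 n
          linarith
  obtain ⟨nn, hnnL, hnn⟩ := exists_neg d c D hd hc F hF0 hFD hnp
  have hσS : σ ≤ S := by rw [hS]; exact Nat.le_mul_of_pos_left σ hu0
  have hEx : ∀ n, n ≤ Nm → Ex d n ≤ Em := fun n hn => Ex_mono d hd hn
  by_cases hU : ∃ p : ℕ, p.Prime ∧ ¬ p ∣ b ∧ ∃ i < nn, ∀ (hp : Fact p.Prime),
      1 < ‖((ya d c F i : ℚ) : ℚ_[p])‖
  · -- unbounded denominators
    obtain ⟨p, hpp, hpb, i1, hi1, hi1n⟩ := hU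
    have hp : Fact p.Prime := ⟨hpp⟩
    have hpB : ¬ p ∣ B := fun h => hpb (hpp.dvd_of_dvd_pow h)
    obtain ⟨N, hNN, hN1, hN2⟩ := record (p := p) d c hd hc f hF0 L i1 (by omega) (hi1n hp) V
    rw [← hF] at hN1 hN2
    have hpV0 : (0 : ℝ) ≤ (p : ℝ) ^ V := by positivity
    have hPn := eval_norm_gt d c F N B hpB _ hpV0 hN2 hN1
    set E : ℕ := Ex d N with hE
    have hEle : E ≤ Em := hEx N hNN
    set P : ℚ := (Y d c F N).eval t with hP
    set x : ℚ := ((b : ℚ) ^ e0) ^ E * ((B : ℚ) ^ N * P) with hx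
    obtain ⟨z0, hz0⟩ := clear b d c hd hc u σ v e0 hS huv f N B hB0
    have hz0' : ((σ ^ E : ℕ) : ℚ) * x = z0 := by push_cast; exact hz0
    have hden : x.den ∣ σ ^ E := den_dvd_of_mul x (σ ^ E) (pow_pos hσ0 E) z0 hz0'
    have hxn : (p : ℝ) ^ V < ‖(x : ℚ_[p])‖ := by
      rw [hx, norm_clear b e0 E B N P hpb hpB]; exact hPn
    have hdenV : p ^ V ≤ x.den := den_ge x V hxn
    have hcopx : IsCoprime x.num (x.den : ℤ) := by
      rw [Int.isCoprime_iff_gcd_eq_one]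
      show Nat.gcd x.num.natAbs ((x.den : ℤ)).natAbs = 1
      rw [Int.natAbs_natCast]
      exact x.reduced
    obtain ⟨j, hj, w, hw1, hwM, hdvd⟩ := horb E x.num x.den x.den_pos hden hcopx
    obtain ⟨z', hz'⟩ := hdvd
    have hdenR : (0 : ℝ) < (x.den : ℝ) := by exact_mod_cast x.den_pos
    have hxR : (b : ℝ) ^ j * (x : ℝ) = (z' : ℝ) - (w : ℝ) / (x.den : ℝ) := by
      have h1 : (x : ℝ) = (x.num : ℝ) / (x.den : ℝ) := by
        have := Rat.num_div_den x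
        have h2 : ((x : ℚ) : ℝ) = (((x.num : ℚ) / (x.den : ℚ) : ℚ) : ℝ) := by rw [this]
        rw [h2]; push_cast; rfl
      have h3 : (x.num : ℝ) * (b : ℝ) ^ j + w = (x.den : ℝ) * z' := by exact_mod_cast hz'
      rw [h1]
      field_simp
      linarith
    refine ⟨j + (e0 * E + k * N), z', ?_⟩
    have hbP : (b : ℝ) ^ (j + (e0 * E + k * N)) * (P : ℝ) = (b : ℝ) ^ j * (x : ℝ) := by
      rw [hx, pow_add, pow_add, pow_mul, pow_mul, hBcast]
      push_cast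
      ring
    have hθ : |(b : ℝ) ^ (j + (e0 * E + k * N)) * (α - (P : ℝ))| ≤
        1 / (8 * ((b : ℝ) - 1) * (S : ℝ) ^ Em) := by
      rw [abs_mul, abs_of_pos (by positivity), abs_sub_comm, pow_add, pow_add, pow_mul (b : ℝ) k N,
        hBcast]
      have h1 := hrem N hNN
      have h2 : (b : ℝ) ^ j * (b : ℝ) ^ (e0 * E) ≤ (b : ℝ) ^ Jm := by
        rw [← pow_add]
        refine pow_le_pow_right₀ (by linarith) ?_
        rw [hJm]
        refine Nat.add_le_add ?_ (Nat.mul_le_mul_left e0 hEle)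
        calc j ≤ m0 * σ ^ E := hj.le
          _ ≤ m0 * S ^ Em := Nat.mul_le_mul_left m0
              ((Nat.pow_le_pow_left hσS E).trans (Nat.pow_le_pow_right hS1 hEle))
      calc (b : ℝ) ^ j * ((b : ℝ) ^ (e0 * E) * (B : ℝ) ^ N) * |(P : ℝ) - α|
          = ((b : ℝ) ^ j * (b : ℝ) ^ (e0 * E)) * ((B : ℝ) ^ N * |(P : ℝ) - α|) := by ring
        _ ≤ (b : ℝ) ^ Jm * (Kc * δ) := mul_le_mul h2 h1 (by positivity) (by positivity)
        _ ≤ (b : ℝ) ^ Jm * ((Kc + 1) * δ) := by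
            refine mul_le_mul_of_nonneg_left ?_ (by positivity)
            exact mul_le_mul_of_nonneg_right (by linarith) hδ0.le
        _ = _ := hδ1
    have hfin := real_caseU (b : ℝ) ((S : ℝ) ^ Em) w x.den M ((2 : ℝ) ^ V)
      ((b : ℝ) ^ j * (x : ℝ)) z' _ hbR hSE (by exact_mod_cast hw1) (by exact_mod_cast hwM) hdenR
      (by
        have h1 : x.den ≤ S ^ Em := (Nat.le_of_dvd (pow_pos hσ0 E) hden).trans
          ((Nat.pow_le_pow_left hσS E).trans (Nat.pow_le_pow_right hS1 hEle))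
        exact_mod_cast h1)
      (by
        have h1 : 2 ^ V ≤ x.den := (Nat.pow_le_pow_left hpp.two_le V).trans hdenV
        exact_mod_cast h1)
      (by
        have h1 : 4 * M * (b - 1) ≤ 2 ^ V := by rw [← hV]; exact Nat.lt_two_pow_self.le
        have h2 : ((4 * M * (b - 1) : ℕ) : ℝ) ≤ ((2 ^ V : ℕ) : ℝ) := by exact_mod_cast h1
        rw [Nat.cast_mul, Nat.cast_sub hb1] at h2
        push_cast at h2
        exact h2) hxR hθ
    have hsplit : (b : ℝ) ^ (j + (e0 * E + k * N)) * α = (b : ℝ) ^ j * (x : ℝ) +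
        (b : ℝ) ^ (j + (e0 * E + k * N)) * (α - (P : ℝ)) := by
      rw [← hbP]; ring
    rw [hsplit]
    exact hfin
  · -- integral coefficients up to the first negative one
    push Not at hU
    have hnn0 : nn ≠ 0 := by
      rintro rfl
      rw [ya_zero] at hnn
      have : (0 : ℚ) ≤ c := by positivity
      linarith
    obtain ⟨N, rfl⟩ : ∃ N, nn = N + 1 := ⟨nn - 1, by omega⟩
    have hNm : N + 1 ≤ Nm := by omega
    set E : ℕ := Ex d N with hE
    have hEle : E ≤ Em := hEx N (by omega)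
    set P : ℚ := (Y d c F N).eval t with hP
    set x : ℚ := ((b : ℚ) ^ e0) ^ E * ((B : ℚ) ^ N * P) with hx
    obtain ⟨z0, hz0⟩ := clear b d c hd hc u σ v e0 hS huv f N B hB0
    have hz0' : ((σ ^ E : ℕ) : ℚ) * x = z0 := by push_cast; exact hz0
    have hden : x.den ∣ σ ^ E := den_dvd_of_mul x (σ ^ E) (pow_pos hσ0 E) z0 hz0'
    have hden1 : x.den = 1 := by
      by_contra hne
      obtain ⟨q, hq, hqd⟩ := Nat.exists_prime_and_dvd hne
      have hqσ : q ∣ σ := hq.dvd_of_dvd_pow (hqd.trans hden)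
      have hqb : ¬ q ∣ b := fun h => by
        have := Nat.dvd_gcd h hqσ
        rw [hcop] at this
        exact hq.one_lt.ne' (Nat.dvd_one.mp this)
      have hfq : Fact q.Prime := ⟨hq⟩
      have hqB : ¬ q ∣ B := fun h => hqb (hq.dvd_of_dvd_pow h)
      have h1 := norm_gt_of_dvd_den (p := q) x hqd
      rw [hx, norm_clear b e0 E B N P hqb hqB] at h1
      have h2 : ‖((P : ℚ) : ℚ_[q])‖ ≤ 1 := by
        rw [hP, ht]
        refine eval_norm_le d c F N B hqB 1 zero_le_one fun i hi => ?_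
        obtain ⟨_, h4⟩ := hU q hq hqb i (by omega)
        exact h4
      linarith
    have hxz : x = (x.num : ℚ) := by
      have := Rat.num_div_den x
      rw [hden1] at this
      simpa using this.symm
    refine ⟨e0 * E + k * N, x.num, ?_⟩
    have hxnum : (x : ℝ) = (x.num : ℝ) := by exact_mod_cast congrArg (fun q : ℚ => (q : ℝ)) hxz
    have hbP : (b : ℝ) ^ (e0 * E + k * N) * (P : ℝ) = (x.num : ℝ) := by
      rw [← hxnum, hx, pow_add, pow_mul, pow_mul, hBcast]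
      push_cast
      ring
    -- the next partial sum
    set P' : ℚ := (Y d c F (N + 1)).eval t with hP'
    set a : ℚ := ya d c F (N + 1) with ha
    have hPP : P' = P + a * t ^ (N + 1) := by
      rw [hP', hP, Y_eq_sum, Y_eq_sum, Finset.sum_range_succ, eval_add, eval_mul, eval_C, eval_pow,
        eval_X]
    set θ : ℝ := (B : ℝ) ^ (N + 1) * (α - (P' : ℝ)) with hθ
    have hθle : |θ| ≤ Kc * δ := by
      rw [hθ, abs_mul, abs_of_pos (by positivity), abs_sub_comm]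
      exact hrem (N + 1) hNm
    have hsplit : (b : ℝ) ^ (e0 * E + k * N) * α = (x.num : ℝ) +
        ((b : ℝ) ^ (e0 * E)) / B * ((a : ℝ) + θ) := by
      have h1 : α = (P : ℝ) + (a : ℝ) * ((B : ℝ)⁻¹) ^ (N + 1) + (α - (P' : ℝ)) := by
        rw [hPP, ht]; push_cast; ring
      have hBne : (B : ℝ) ≠ 0 := by positivity
      calc (b : ℝ) ^ (e0 * E + k * N) * α
          = (b : ℝ) ^ (e0 * E + k * N) * ((P : ℝ) + (a : ℝ) * ((B : ℝ)⁻¹) ^ (N + 1) +
            (α - (P' : ℝ))) := by rw [← h1]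
        _ = (b : ℝ) ^ (e0 * E + k * N) * (P : ℝ) + (b : ℝ) ^ (e0 * E) * ((B : ℝ) ^ N *
            ((a : ℝ) * ((B : ℝ)⁻¹) ^ (N + 1) + (α - (P' : ℝ)))) := by
              rw [pow_add (b : ℝ) (e0 * E) (k * N), pow_mul (b : ℝ) k N, hBcast]; ring
        _ = (x.num : ℝ) + ((b : ℝ) ^ (e0 * E)) / B * ((a : ℝ) + θ) := by
              rw [hbP, hθ, pow_succ (B : ℝ) N, inv_pow, pow_succ (B : ℝ) N]
              field_simp
    have haneg : (a : ℝ) ≤ -(1 / (S : ℝ) ^ Em) := by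
      obtain ⟨y, hy⟩ := ya_int d c hd hc f (N + 1)
      rw [← hF, ← ha] at hy
      have hSE0 : (0 : ℚ) < ((d * c : ℕ) : ℚ) ^ (Ex d (N + 1)) := by
        have : (0 : ℚ) < ((d * c : ℕ) : ℚ) := by exact_mod_cast hS1
        positivity
      have hy0 : (y : ℚ) < 0 := by rw [← hy]; exact mul_neg_of_pos_of_neg hSE0 hnn
      have hy1 : y ≤ -1 := by
        have : y < 0 := by exact_mod_cast hy0
        omega
      have hyR : ((S : ℝ)) ^ (Ex d (N + 1)) * (a : ℝ) = (y : ℝ) := by exact_mod_cast hy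
      have hy1R : (y : ℝ) ≤ -1 := by exact_mod_cast hy1
      have hSp : (0 : ℝ) < (S : ℝ) ^ (Ex d (N + 1)) := by positivity
      have h1 : (a : ℝ) ≤ -(1 / (S : ℝ) ^ (Ex d (N + 1))) := by
        have h2 : (a : ℝ) = (y : ℝ) / (S : ℝ) ^ (Ex d (N + 1)) := by
          rw [← hyR]; field_simp
        rw [h2, ← neg_div]
        exact div_le_div_of_nonneg_right hy1R hSp.le
      refine h1.trans (neg_le_neg ?_)
      exact one_div_le_one_div_of_le hSp (pow_le_pow_right₀ hSR (hEx (N + 1) hNm))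
    have habs : |(a : ℝ)| / B ≤ Kc * δ := by
      have h1 := Y_maj d c hd hc F H hHQ hFH (N + 1) (N + 1)
      have h2 : (Y d c F (N + 1)).coeff (N + 1) = a := rfl
      rw [h2] at h1
      have h3 : |(a : ℝ)| ≤ ((U d c (N + 1)).coeff (N + 1) : ℝ) * (H : ℝ) ^ (N + 1) := by
        exact_mod_cast h1
      have h4 : ((U d c (N + 1)).coeff (N + 1) : ℝ) ≤ Kc := by
        have h5 := hKn (N + 1) hNm
        have h6 := hK2 (N + 1)
        have h7 : 0 ≤ (2 : ℝ) ^ d * (K1 d c D (N + 1) : ℝ) := mul_nonneg (by positivity) (hK1 _)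
        linarith
      calc |(a : ℝ)| / B ≤ ((U d c (N + 1)).coeff (N + 1) : ℝ) * (H : ℝ) ^ (N + 1) / B :=
            div_le_div_of_nonneg_right h3 (by positivity)
        _ = ((U d c (N + 1)).coeff (N + 1) : ℝ) * ((H : ℝ) ^ (N + 1) / B) := by ring
        _ ≤ Kc * δ := mul_le_mul h4 (hHn N (by omega)) (by positivity) hKc0
    have hb0le : (b : ℝ) ^ (e0 * E) * (Kc * δ) ≤ 1 / (8 * ((b : ℝ) - 1) * (S : ℝ) ^ Em) := by
      rw [← hδ1]
      refine mul_le_mul ?_ (mul_le_mul_of_nonneg_right (by linarith) hδ0.le) (by positivity)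
        (by positivity)
      refine pow_le_pow_right₀ (by linarith) ?_
      rw [hJm]
      exact (Nat.mul_le_mul_left e0 hEle).trans (Nat.le_add_left _ _)
    exact real_caseI (b : ℝ) ((S : ℝ) ^ Em) ((b : ℝ) ^ (e0 * E)) B a θ (Kc * δ) x.num _ hbR hSE
      (by positivity) hBR haneg (by positivity) hb0le (one_le_pow₀ (by linarith)) hθle habs hsplit

end Pool.Agent.Work.H55M
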