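import Mathlib

/-!
Powers of an integer `b` modulo numbers `Q` all of whose prime factors lie in a fixed finite set:
they meet every residue class which is `1` modulo a fixed integer (Hull-Dobell).
-/

namespace Pool.Agent.Work.H55M

open Finset

lemma emult_geom {p : ℕ} (hp : p.Prime) {B : ℕ} (hB : 1 < B) (hpB : (p : ℤ) ∣ (B : ℤ) - 1)
    (h4 : p = 2 → (4 : ℤ) ∣ (B : ℤ) - 1) (n : ℕ) :
    emultiplicity (p : ℤ) (∑ i ∈ range n, (B : ℤ) ^ i) = emultiplicity (p : ℤ) (n : ℤ) := by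
  have hpi : Prime (p : ℤ) := Nat.prime_iff_prime_int.mp hp
  have hpx : ¬ (p : ℤ) ∣ (B : ℤ) := by
    intro h
    have h1 : (p : ℤ) ∣ 1 := by
      have := dvd_sub h hpB
      simpa using this
    exact hpi.not_isUnit (isUnit_of_dvd_one h1)
  have key : emultiplicity (p : ℤ) ((B : ℤ) ^ n - 1 ^ n)
      = emultiplicity (p : ℤ) ((B : ℤ) - 1) + emultiplicity (p : ℤ) (n : ℤ) := by
    rcases hp.eq_two_or_odd' with h2 | hodd
    · subst h2
      have := Int.two_pow_sub_pow' (x := (B : ℤ)) (y := 1) n (h4 rfl) (by simpa using hpx)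
      simpa using this
    · have := Int.emultiplicity_pow_sub_pow hp hodd (x := (B : ℤ)) (y := 1) hpB hpx n
      rw [this, Int.natCast_emultiplicity]
  have hprod : (∑ i ∈ range n, (B : ℤ) ^ i) * ((B : ℤ) - 1) = (B : ℤ) ^ n - 1 ^ n := by
    rw [one_pow, geom_sum_mul]
  rw [← hprod, emultiplicity_mul hpi, add_comm] at key
  have hfin : FiniteMultiplicity (p : ℤ) ((B : ℤ) - 1) := by
    apply Int.finiteMultiplicity_iff.mpr
    refine ⟨?_, ?_⟩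
    · simpa using hp.ne_one
    · have : (1 : ℤ) < B := by exact_mod_cast hB
      intro h0; linarith
  have hne : emultiplicity (p : ℤ) ((B : ℤ) - 1) ≠ ⊤ :=
    finiteMultiplicity_iff_emultiplicity_ne_top.mp hfin
  exact (WithTop.add_left_inj hne).mp key

lemma pow_dvd_geom {p : ℕ} (hp : p.Prime) {B : ℕ} (hB : 1 < B) (hpB : (p : ℤ) ∣ (B : ℤ) - 1)
    (h4 : p = 2 → (4 : ℤ) ∣ (B : ℤ) - 1) (k n : ℕ)
    (h : (p : ℤ) ^ k ∣ ∑ i ∈ range n, (B : ℤ) ^ i) : p ^ k ∣ n := by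
  have h1 := pow_dvd_iff_le_emultiplicity.mp h
  rw [emult_geom hp hB hpB h4] at h1
  have h2 := pow_dvd_iff_le_emultiplicity.mpr h1
  exact_mod_cast h2

/-- if `σ ∣ B - 1` (and `4 ∣ B - 1` if `σ` is even), the sums `1 + B + ... + B^(j-1)`,
`j < σ^E`, run through all classes modulo `σ^E` -/
lemma geom_surj {σ B : ℕ} (hσ : 0 < σ) (hB : 1 < B) (h : σ ∣ B - 1) (h4 : 2 ∣ σ → 4 ∣ B - 1)
    (E : ℕ) (v : ℤ) :
    ∃ j < σ ^ E, ((σ ^ E : ℕ) : ℤ) ∣ (∑ i ∈ range j, (B : ℤ) ^ i) - v := by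
  have hm : 0 < σ ^ E := pow_pos hσ E
  have : NeZero (σ ^ E) := ⟨hm.ne'⟩
  have hdvdZ : (σ : ℤ) ∣ (B : ℤ) - 1 := by
    have := Int.natCast_dvd_natCast.mpr h
    rwa [Nat.cast_sub hB.le, Nat.cast_one] at this
  have hdiv : ∀ n : ℕ, ((σ ^ E : ℕ) : ℤ) ∣ ∑ i ∈ range n, (B : ℤ) ^ i → σ ^ E ∣ n := by
    intro n hn
    rw [Nat.dvd_iff_prime_pow_dvd_dvd]
    intro p k hp hpk
    rcases Nat.eq_zero_or_pos k with hk | hk
    · subst hk; simp
    have hpσ : p ∣ σ := hp.dvd_of_dvd_pow ((dvd_pow_self p hk.ne').trans hpk)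
    apply pow_dvd_geom hp hB
    · exact (Int.natCast_dvd_natCast.mpr hpσ).trans hdvdZ
    · intro hp2
      have := Int.natCast_dvd_natCast.mpr (h4 (hp2 ▸ hpσ))
      rwa [Nat.cast_sub hB.le, Nat.cast_one] at this
    · have : ((p ^ k : ℕ) : ℤ) ∣ ((σ ^ E : ℕ) : ℤ) := Int.natCast_dvd_natCast.mpr hpk
      have h2 := this.trans hn
      simpa using h2
  -- the map on ZMod
  let φ : Fin (σ ^ E) → ZMod (σ ^ E) := fun j => ((∑ i ∈ range j.1, (B : ℤ) ^ i : ℤ) : ZMod (σ ^ E))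
  have hinj : Function.Injective φ := by
    intro i j hij
    have aux : ∀ i j : Fin (σ ^ E), i.1 ≤ j.1 → φ i = φ j → i = j := by
      intro i j hle hij
      have h1 : ((σ ^ E : ℕ) : ℤ) ∣ (∑ l ∈ range j.1, (B : ℤ) ^ l) - ∑ l ∈ range i.1, (B : ℤ) ^ l :=
        (ZMod.intCast_eq_intCast_iff_dvd_sub _ _ _).mp hij
      have h2 : (∑ l ∈ range j.1, (B : ℤ) ^ l) - ∑ l ∈ range i.1, (B : ℤ) ^ l
          = (B : ℤ) ^ i.1 * ∑ l ∈ range (j.1 - i.1), (B : ℤ) ^ l := by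
        obtain ⟨m, hm⟩ := Nat.exists_eq_add_of_le hle
        rw [hm, sum_range_add, Nat.add_sub_cancel_left, mul_sum]
        simp only [pow_add]
        ring
      rw [h2] at h1
      have hcop : IsCoprime (((σ ^ E : ℕ) : ℤ)) ((B : ℤ) ^ i.1) := by
        rw [Nat.cast_pow]
        apply IsCoprime.pow
        obtain ⟨w, hw⟩ := hdvdZ
        refine ⟨-w, 1, ?_⟩
        linarith
      have h3 := hcop.dvd_of_dvd_mul_left h1
      have h4 := hdiv _ h3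
      have h5 : j.1 - i.1 = 0 := Nat.eq_zero_of_dvd_of_lt h4 (by omega)
      apply Fin.ext
      omega
    rcases le_total i.1 j.1 with hle | hle
    · exact aux i j hle hij
    · exact (aux j i hle hij.symm).symm
  have hbij : Function.Bijective φ := by
    rw [Fintype.bijective_iff_injective_and_card]
    exact ⟨hinj, by simp [ZMod.card]⟩
  obtain ⟨j, hj⟩ := hbij.2 ((v : ℤ) : ZMod (σ ^ E))
  refine ⟨j.1, j.2, ?_⟩
  have := (ZMod.intCast_eq_intCast_iff_dvd_sub _ _ _).mp hj.symm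
  exact this

/-- for `b` prime to `σ` there are `M, m₀` such that for all `Q ∣ σ^E` and all `a` prime to `Q`
some `a b^j`, `j < m₀ σ^E`, is `-w` modulo `Q` with `1 ≤ w ≤ M` -/
lemma orbit {b σ : ℕ} (hb : 1 < b) (hσ : 0 < σ) (hc : Nat.Coprime b σ) :
    ∃ M m₀ : ℕ, 1 ≤ M ∧ 1 ≤ m₀ ∧ ∀ (E : ℕ) (a : ℤ) (Q : ℕ), 0 < Q → Q ∣ σ ^ E →
      IsCoprime a (Q : ℤ) → ∃ j < m₀ * σ ^ E, ∃ w : ℕ, 1 ≤ w ∧ w ≤ M ∧
        (Q : ℤ) ∣ a * (b : ℤ) ^ j + w := by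
  -- the modulus
  obtain ⟨μ, hμ0, hμσ, hμ4, hμc⟩ : ∃ μ : ℕ, 0 < μ ∧ σ ∣ μ ∧ (2 ∣ σ → 4 ∣ μ) ∧ Nat.Coprime b μ := by
    by_cases h2 : 2 ∣ σ
    · refine ⟨4 * σ, by positivity, dvd_mul_left _ _, fun _ => dvd_mul_right _ _, ?_⟩
      have hb2 : Nat.Coprime b 2 := Nat.Coprime.coprime_dvd_right h2 hc
      exact Nat.Coprime.mul_right (by simpa using Nat.Coprime.pow_right 2 hb2) hc
    · exact ⟨σ, hσ, dvd_rfl, fun h => absurd h h2, hc⟩
  · set m₀ := Nat.totient μ with hm₀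
    have hm₀pos : 0 < m₀ := Nat.totient_pos.mpr hμ0
    set B := b ^ m₀ with hBdef
    have hB : 1 < B := Nat.one_lt_pow hm₀pos.ne' hb
    have hmod : b ^ m₀ ≡ 1 [MOD μ] := Nat.ModEq.pow_totient hμc
    have hdvd : μ ∣ B - 1 := (Nat.modEq_iff_dvd' hB.le).mp hmod.symm
    refine ⟨B - 1, m₀, by omega, hm₀pos, ?_⟩
    intro E a Q hQ hQσ hcop
    set g := Nat.gcd (B - 1) Q with hg
    have hgpos : 0 < g := Nat.gcd_pos_of_pos_right _ hQ
    -- w in [1,g] with w ≡ -a mod g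
    obtain ⟨w, hw1, hw2, hw3⟩ : ∃ w : ℕ, 1 ≤ w ∧ w ≤ g ∧ (g : ℤ) ∣ a + w := by
      have hgz : (0 : ℤ) < g := by exact_mod_cast hgpos
      have h0 := Int.emod_nonneg (-a - 1) hgz.ne'
      have h1 := Int.emod_lt_of_pos (-a - 1) hgz
      refine ⟨((-a - 1) % (g : ℤ)).toNat + 1, by omega, by omega, ?_⟩
      have h2 := Int.emod_add_mul_ediv (-a - 1) (g : ℤ)
      refine ⟨-((-a - 1) / (g : ℤ)), ?_⟩
      push_cast
      rw [Int.toNat_of_nonneg h0]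
      linarith
    -- solve a (B-1) v ≡ -w - a mod Q
    have hcast : ((B - 1 : ℕ) : ℤ) = (B : ℤ) - 1 := by
      rw [Nat.cast_sub hB.le, Nat.cast_one]
    obtain ⟨v, hv⟩ : ∃ v : ℤ, (Q : ℤ) ∣ a * ((B : ℤ) - 1) * v + (a + w) := by
      -- g = x (B-1) + y Q ; a inverse
      obtain ⟨x, y, hxy⟩ : ∃ x y : ℤ, (g : ℤ) = x * ((B : ℤ) - 1) + y * Q := by
        refine ⟨Int.gcdA ((B : ℤ) - 1) Q, Int.gcdB ((B : ℤ) - 1) Q, ?_⟩
        have := Int.gcd_eq_gcd_ab ((B : ℤ) - 1) Q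
        rw [← hcast] at this ⊢
        rw [Int.gcd_natCast_natCast] at this
        rw [hg, this]; ring
      obtain ⟨z, hz⟩ := hw3
      obtain ⟨α, β, hαβ⟩ := hcop
      refine ⟨-(x * z * α), ?_⟩
      rw [hz, hxy]
      -- a (B-1) (-(x z α)) + (x (B-1) + y Q) z, with α a = 1 - β Q
      refine ⟨x * z * ((B : ℤ) - 1) * β + y * z, ?_⟩
      have hαβ' : α * a = 1 - β * Q := by linarith
      calc a * ((B : ℤ) - 1) * -(x * z * α) + (x * ((B : ℤ) - 1) + y * Q) * z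
          = -(α * a) * (((B : ℤ) - 1) * x * z) + (x * ((B : ℤ) - 1) + y * Q) * z := by ring
        _ = _ := by rw [hαβ']; ring
    obtain ⟨j, hj1, hj2⟩ := geom_surj hσ hB (hμσ.trans hdvd) (fun h => (hμ4 h).trans hdvd) E v
    refine ⟨m₀ * j, Nat.mul_lt_mul_of_pos_left hj1 hm₀pos, w, hw1, ?_, ?_⟩
    · exact hw2.trans (Nat.gcd_le_left _ (by omega))
    · have hQ2 : (Q : ℤ) ∣ (∑ i ∈ range j, (B : ℤ) ^ i) - v :=
        (Int.natCast_dvd_natCast.mpr hQσ).trans hj2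
      have hpow : (b : ℤ) ^ (m₀ * j) = 1 + ((B : ℤ) - 1) * ∑ i ∈ range j, (B : ℤ) ^ i := by
        have := geom_sum_mul (B : ℤ) j
        rw [pow_mul, mul_comm ((B : ℤ) - 1), this, hBdef]
        push_cast
        ring
      rw [hpow]
      have h1 := dvd_add (Dvd.dvd.mul_left hQ2 (a * ((B : ℤ) - 1))) hv
      have h2 : a * ((B : ℤ) - 1) * ((∑ i ∈ range j, (B : ℤ) ^ i) - v) +
          (a * ((B : ℤ) - 1) * v + (a + w))
          = a * (1 + ((B : ℤ) - 1) * ∑ i ∈ range j, (B : ℤ) ^ i) + w := by ring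
      rwa [h2] at h1

end Pool.Agent.Work.H55M
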