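import Pool.Agent.Work.MP_48678a_h55.Series

/-!
Denominators of the coefficients of the `d`-th root: one nonintegral coefficient (at `p`) forces
coefficients with larger and larger denominators.
-/

namespace Pool.Agent.Work.H55M

open Finset Polynomial

/-- the power `G ^ d` of a polynomial with `G.coeff i0 ≠ 0` over a domain has a nonzero coefficient of
index at most `d * i0` -/
lemma exists_coeff_pow {R : Type*} [CommRing R] [IsDomain R] (G : R[X]) (i0 d : ℕ)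
    (h : G.coeff i0 ≠ 0) : ∃ i ≤ d * i0, (G ^ d).coeff i ≠ 0 := by
  have hG : G ≠ 0 := fun h0 => h (by rw [h0, coeff_zero])
  have hle : G.natTrailingDegree ≤ i0 := natTrailingDegree_le_of_ne_zero h
  have hpow : ∀ d : ℕ, (G ^ d).natTrailingDegree = d * G.natTrailingDegree := by
    intro d
    induction d with
    | zero => simp
    | succ d ih =>
      rw [pow_succ, natTrailingDegree_mul (pow_ne_zero _ hG) hG, ih]
      ring
  refine ⟨(G ^ d).natTrailingDegree, ?_, ?_⟩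
  · rw [hpow]
    exact Nat.mul_le_mul_left d hle
  · have := trailingCoeff_nonzero_iff_nonzero.mpr (pow_ne_zero d hG)
    exact this

/-- if `|a_{i0}|_p > 1` then some coefficient of index at most `d i0` is larger -/
lemma padic_growth (p : ℕ) [hp : Fact p.Prime] (d : ℕ) (hd : 1 ≤ d) (i0 : ℕ) (P : ℚ[X])
    (hint : ∀ i ≤ d * i0, ∃ z : ℤ, (P ^ d).coeff i = z)
    (h1 : 1 < ‖((P.coeff i0 : ℚ) : ℚ_[p])‖)
    (hdeg : P.natDegree ≤ d * i0) :
    ∃ i ≤ d * i0, ‖((P.coeff i0 : ℚ) : ℚ_[p])‖ < ‖((P.coeff i : ℚ) : ℚ_[p])‖ := by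
  by_contra hcon
  push Not at hcon
  set N := d * i0 with hN
  have hbound : ∀ i, ‖((P.coeff i : ℚ) : ℚ_[p])‖ ≤ ‖((P.coeff i0 : ℚ) : ℚ_[p])‖ := by
    intro i
    rcases Nat.lt_or_ge N i with h | h
    · rw [coeff_eq_zero_of_natDegree_lt (hdeg.trans_lt h), Rat.cast_zero, norm_zero]
      exact norm_nonneg _
    · exact hcon i h
  set x : ℚ_[p] := ((P.coeff i0 : ℚ) : ℚ_[p]) with hx
  have hx0 : x ≠ 0 := by
    intro h
    rw [h, norm_zero] at h1
    linarith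
  have hxn : 0 < ‖x‖ := norm_pos_iff.mpr hx0
  -- scaled polynomial over `ℤ_p`
  have hsc : ∀ i, ‖x⁻¹ * ((P.coeff i : ℚ) : ℚ_[p])‖ ≤ 1 := by
    intro i
    rw [norm_mul, norm_inv, inv_mul_le_iff₀ hxn, mul_one]
    exact hbound i
  set g : ℕ → ℤ_[p] := fun i => ⟨x⁻¹ * ((P.coeff i : ℚ) : ℚ_[p]), hsc i⟩ with hg
  set G : ℤ_[p][X] := ∑ i ∈ range (N + 1), C (g i) * X ^ i
    with hG
  have hGc : ∀ i, ((G.coeff i : ℤ_[p]) : ℚ_[p]) = x⁻¹ * ((P.coeff i : ℚ) : ℚ_[p]) := by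
    intro j
    rw [hG, finsetSum_coeff]
    simp only [coeff_C_mul, coeff_X_pow, mul_ite, mul_one, mul_zero]
    rw [Finset.sum_ite_eq]
    split_ifs with h
    · rfl
    · rw [mem_range, not_lt] at h
      rw [coeff_eq_zero_of_natDegree_lt (hdeg.trans_lt (by omega))]
      simp
  have hGmap : G.map (PadicInt.Coe.ringHom (p := p)) =
      C x⁻¹ * P.map (algebraMap ℚ ℚ_[p]) := by
    ext j
    rw [coeff_map, coeff_C_mul, coeff_map]
    exact hGc j
  have hpowmap : (G ^ d).map (PadicInt.Coe.ringHom (p := p)) =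
      C (x⁻¹ ^ d) * (P ^ d).map (algebraMap ℚ ℚ_[p]) := by
    rw [Polynomial.map_pow, hGmap, mul_pow, ← C_pow, Polynomial.map_pow]
  have hcoef : ∀ i ≤ N, ‖(G ^ d).coeff i‖ < 1 := by
    intro i hi
    obtain ⟨z, hz⟩ := hint i hi
    have e1 : (((G ^ d).coeff i : ℤ_[p]) : ℚ_[p]) = x⁻¹ ^ d * ((z : ℚ) : ℚ_[p]) := by
      have := congrArg (fun q => coeff q i) hpowmap
      simp only [coeff_map, coeff_C_mul] at this
      rw [hz] at this
      exact this
    have e2 : ‖(((G ^ d).coeff i : ℤ_[p]) : ℚ_[p])‖ < 1 := by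
      rw [e1, norm_mul, norm_pow, norm_inv]
      have h3 : ‖((z : ℚ) : ℚ_[p])‖ ≤ 1 := by
        rw [Rat.cast_intCast]
        exact Padic.norm_int_le_one z
      have h4 : ‖x‖⁻¹ < 1 := inv_lt_one_of_one_lt₀ h1
      have h5 : ‖x‖⁻¹ ^ d < 1 := pow_lt_one₀ (by positivity) h4 (by omega)
      calc ‖x‖⁻¹ ^ d * ‖((z : ℚ) : ℚ_[p])‖ ≤ ‖x‖⁻¹ ^ d * 1 :=
            mul_le_mul_of_nonneg_left h3 (by positivity)
        _ < 1 := by rw [mul_one]; exact h5
    exact e2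
  -- reduce modulo `p`
  set Gb : (ZMod p)[X] := G.map (PadicInt.toZMod (p := p)) with hGb
  have hz : ∀ i ≤ N, (Gb ^ d).coeff i = 0 := by
    intro i hi
    rw [hGb, ← Polynomial.map_pow, coeff_map]
    have hmem : (G ^ d).coeff i ∈ IsLocalRing.maximalIdeal ℤ_[p] := by
      rw [IsLocalRing.mem_maximalIdeal, mem_nonunits_iff, PadicInt.not_isUnit_iff]
      exact hcoef i hi
    rw [← PadicInt.ker_toZMod] at hmem
    exact hmem
  have hne : Gb.coeff i0 ≠ 0 := by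
    rw [hGb, coeff_map]
    intro h
    have hmem : G.coeff i0 ∈ RingHom.ker (PadicInt.toZMod (p := p)) := h
    rw [PadicInt.ker_toZMod, IsLocalRing.mem_maximalIdeal, mem_nonunits_iff,
      PadicInt.not_isUnit_iff] at hmem
    have h2 : ‖((G.coeff i0 : ℤ_[p]) : ℚ_[p])‖ = 1 := by
      rw [hGc, ← hx, inv_mul_cancel₀ hx0, norm_one]
    have h3 : ‖G.coeff i0‖ = ‖((G.coeff i0 : ℤ_[p]) : ℚ_[p])‖ := rfl
    rw [h3, h2] at hmem
    exact lt_irrefl _ hmem
  obtain ⟨i, hi, hi2⟩ := exists_coeff_pow Gb i0 d hne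
  exact hi2 (hz i hi)

end Pool.Agent.Work.H55M
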