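import Pool.Agent.Work.MP_48678a_h55.Bounds
import Pool.Agent.Work.MP_48678a_h55.Orbit

/-!
Record denominators and the values of the partial sums.
-/

namespace Pool.Agent.Work.H55M

open Finset Polynomial

lemma split (b : ℕ) (hb : 1 ≤ b) : ∀ S : ℕ, 1 ≤ S → ∃ u σ e : ℕ, S = u * σ ∧ u ∣ b ^ e ∧
    Nat.Coprime b σ := by
  intro S
  induction S using Nat.strong_induction_on with
  | _ S ih =>
    intro hS
    rcases Nat.eq_or_lt_of_le (Nat.one_le_iff_ne_zero.mpr (Nat.gcd_pos_of_pos_left S hb).ne') with h | h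
    · exact ⟨1, S, 0, by rw [one_mul], by simp, h.symm⟩
    · obtain ⟨S', hS'⟩ := Nat.gcd_dvd_right b S
      have hpos : 0 < S' := by
        rcases Nat.eq_zero_or_pos S' with h0 | h0
        · rw [h0, mul_zero] at hS'; omega
        · exact h0
      have hlt : S' < S := by
        rw [hS']
        calc S' = 1 * S' := (one_mul _).symm
          _ < Nat.gcd b S * S' := by
              exact Nat.mul_lt_mul_of_pos_right h hpos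
      obtain ⟨u, σ, e, h1, h2, h3⟩ := ih S' hlt hpos
      refine ⟨Nat.gcd b S * u, σ, e + 1, ?_, ?_, h3⟩
      · rw [mul_assoc, ← h1]; exact hS'
      · rw [pow_succ']
        exact Nat.mul_dvd_mul (Nat.gcd_dvd_left b S) h2

section
variable {p : ℕ} [hp : Fact p.Prime]

lemma growth (d c : ℕ) (hd : 1 ≤ d) (hc : 1 ≤ c) (f : ℤ[X])
    (h0 : (f.map (Int.castRingHom ℚ)).coeff 0 = (c : ℚ) ^ d) (L i1 : ℕ) (hi1 : i1 ≤ L)
    (h1 : 1 < ‖((ya d c (f.map (Int.castRingHom ℚ)) i1 : ℚ) : ℚ_[p])‖) (V : ℕ) :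
    ∃ i ≤ L * d ^ V, (p : ℝ) ^ V < ‖((ya d c (f.map (Int.castRingHom ℚ)) i : ℚ) : ℚ_[p])‖ := by
  set F := f.map (Int.castRingHom ℚ) with hF
  induction V with
  | zero => exact ⟨i1, by simpa using hi1, by simpa using h1⟩
  | succ V ih =>
    obtain ⟨i0, hi0, hn0⟩ := ih
    have hle : i0 ≤ d * i0 := Nat.le_mul_of_pos_left i0 hd
    have hco : (Y d c F (d * i0)).coeff i0 = ya d c F i0 := by rw [Y_coeff, if_pos hle]
    have hp1 : (1 : ℝ) ≤ (p : ℝ) ^ V := one_le_pow₀ (by exact_mod_cast hp.out.one_le)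
    obtain ⟨i, hi, hi2⟩ := padic_growth p d hd i0 (Y d c F (d * i0))
      (fun i hi => ⟨f.coeff i, by rw [Y_spec d c hd hc F h0 _ i hi, hF, coeff_map]; rfl⟩)
      (by rw [hco]; exact lt_of_le_of_lt hp1 hn0) (Y_natDegree d c F _)
    rw [hco, Y_coeff, if_pos hi] at hi2
    refine ⟨i, hi.trans ?_, ?_⟩
    · calc d * i0 ≤ d * (L * d ^ V) := Nat.mul_le_mul_left d hi0
        _ = L * d ^ (V + 1) := by ring
    · refine lt_of_le_of_lt ?_ hi2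
      by_contra hlt
      rw [not_le] at hlt
      have h2 := (Padic.norm_le_pow_iff_norm_lt_pow_add_one ((ya d c F i0 : ℚ) : ℚ_[p]) (V : ℤ)).mpr
        (by exact_mod_cast hlt)
      rw [zpow_natCast] at h2
      exact absurd hn0 (not_lt.mpr h2)

lemma record (d c : ℕ) (hd : 1 ≤ d) (hc : 1 ≤ c) (f : ℤ[X])
    (h0 : (f.map (Int.castRingHom ℚ)).coeff 0 = (c : ℚ) ^ d) (L i1 : ℕ) (hi1 : i1 ≤ L)
    (h1 : 1 < ‖((ya d c (f.map (Int.castRingHom ℚ)) i1 : ℚ) : ℚ_[p])‖) (V : ℕ) :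
    ∃ N ≤ L * d ^ V, (p : ℝ) ^ V < ‖((ya d c (f.map (Int.castRingHom ℚ)) N : ℚ) : ℚ_[p])‖ ∧
      ∀ i < N, ‖((ya d c (f.map (Int.castRingHom ℚ)) i : ℚ) : ℚ_[p])‖ ≤ (p : ℝ) ^ V := by
  classical
  have hex := growth (p := p) d c hd hc f h0 L i1 hi1 h1 V
  have hex' : ∃ i, (p : ℝ) ^ V < ‖((ya d c (f.map (Int.castRingHom ℚ)) i : ℚ) : ℚ_[p])‖ := by
    obtain ⟨i, _, hi⟩ := hex
    exact ⟨i, hi⟩
  refine ⟨Nat.find hex', ?_, Nat.find_spec hex', fun i hi => ?_⟩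
  · obtain ⟨i, hi, hi2⟩ := hex
    exact (Nat.find_min' hex' hi2).trans hi
  · exact not_lt.mp (Nat.find_min hex' hi)

/-- norms of the values -/
lemma eval_sum (d c : ℕ) (F : ℚ[X]) (N : ℕ) (t : ℚ) :
    (((Y d c F N).eval t : ℚ) : ℚ_[p]) = ∑ i ∈ range (N + 1),
      ((ya d c F i : ℚ) : ℚ_[p]) * ((t : ℚ) : ℚ_[p]) ^ i := by
  rw [eval_eq_sum_range' (lt_of_le_of_lt (Y_natDegree d c F N) (Nat.lt_succ_self N))]
  push_cast
  refine Finset.sum_congr rfl fun i hi => ?_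
  rw [Y_coeff, if_pos (by rw [mem_range] at hi; omega)]

lemma norm_inv_nat (B : ℕ) (hB : ¬ p ∣ B) : ‖(((B : ℚ)⁻¹ : ℚ) : ℚ_[p])‖ = 1 := by
  push_cast
  rw [norm_inv, Padic.norm_natCast_eq_one_iff.mpr ((Nat.Prime.coprime_iff_not_dvd hp.out).mpr hB),
    inv_one]

lemma sum_norm_le (d c : ℕ) (F : ℚ[X]) (N : ℕ) (B : ℕ) (hB : ¬ p ∣ B) (C : ℝ) (hC : 0 ≤ C)
    (h : ∀ i < N, ‖((ya d c F i : ℚ) : ℚ_[p])‖ ≤ C) :
    ‖∑ i ∈ range N, ((ya d c F i : ℚ) : ℚ_[p]) * (((B : ℚ)⁻¹ : ℚ) : ℚ_[p]) ^ i‖ ≤ C := by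
  refine IsUltrametricDist.norm_sum_le_of_forall_le_of_nonneg hC fun i hi => ?_
  rw [norm_mul, norm_pow, norm_inv_nat B hB, one_pow, mul_one]
  exact h i (mem_range.mp hi)

lemma eval_norm_gt (d c : ℕ) (F : ℚ[X]) (N : ℕ) (B : ℕ) (hB : ¬ p ∣ B) (C : ℝ) (hC : 0 ≤ C)
    (h : ∀ i < N, ‖((ya d c F i : ℚ) : ℚ_[p])‖ ≤ C) (hN : C < ‖((ya d c F N : ℚ) : ℚ_[p])‖) :
    C < ‖(((Y d c F N).eval ((B : ℚ)⁻¹) : ℚ) : ℚ_[p])‖ := by
  rw [eval_sum, Finset.sum_range_succ]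
  have hs := sum_norm_le d c F N B hB C hC h
  set x := ∑ i ∈ range N, ((ya d c F i : ℚ) : ℚ_[p]) * (((B : ℚ)⁻¹ : ℚ) : ℚ_[p]) ^ i with hx
  set y := ((ya d c F N : ℚ) : ℚ_[p]) * (((B : ℚ)⁻¹ : ℚ) : ℚ_[p]) ^ N with hy
  have hyn : ‖y‖ = ‖((ya d c F N : ℚ) : ℚ_[p])‖ := by
    rw [hy, norm_mul, norm_pow, norm_inv_nat B hB, one_pow, mul_one]
  by_contra hcon
  rw [not_lt] at hcon
  have h1 : ‖y‖ ≤ max ‖x + y‖ ‖-x‖ := by
    have := Padic.nonarchimedean (x + y) (-x)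
    rwa [add_neg_cancel_comm] at this
  rw [norm_neg, hyn] at h1
  exact absurd (h1.trans (max_le hcon hs)) (not_le.mpr hN)

lemma eval_norm_le (d c : ℕ) (F : ℚ[X]) (N : ℕ) (B : ℕ) (hB : ¬ p ∣ B) (C : ℝ) (hC : 0 ≤ C)
    (h : ∀ i ≤ N, ‖((ya d c F i : ℚ) : ℚ_[p])‖ ≤ C) :
    ‖(((Y d c F N).eval ((B : ℚ)⁻¹) : ℚ) : ℚ_[p])‖ ≤ C := by
  rw [eval_sum]
  exact sum_norm_le d c F (N + 1) B hB C hC (fun i hi => h i (by omega))

/-- a large `p`-adic norm forces a large denominator -/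
lemma den_ge (x : ℚ) (V : ℕ) (h : (p : ℝ) ^ V < ‖(x : ℚ_[p])‖) : p ^ V ≤ x.den := by
  have hx : (x : ℚ_[p]) * ((x.den : ℕ) : ℚ_[p]) = ((x.num : ℤ) : ℚ_[p]) := by
    have := Rat.mul_den_eq_num x
    exact_mod_cast congrArg (fun q : ℚ => (q : ℚ_[p])) this
  have h1 : ‖(x : ℚ_[p])‖ * ‖((x.den : ℕ) : ℚ_[p])‖ ≤ 1 := by
    rw [← norm_mul, hx]; exact Padic.norm_int_le_one _
  have hpV : (0 : ℝ) < (p : ℝ) ^ V := pow_pos (by exact_mod_cast hp.out.pos) _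
  have h2 : ‖((x.den : ℤ) : ℚ_[p])‖ ≤ (p : ℝ) ^ (-V : ℤ) := by
    rw [zpow_neg, zpow_natCast, Int.cast_natCast]
    have ha : 0 < ‖(x : ℚ_[p])‖ := hpV.trans h
    calc ‖((x.den : ℕ) : ℚ_[p])‖ ≤ 1 / ‖(x : ℚ_[p])‖ := by
          rw [le_div_iff₀ ha, mul_comm]; exact h1
      _ ≤ ((p : ℝ) ^ V)⁻¹ := by
          rw [one_div]
          exact inv_anti₀ hpV h.le
  rw [Padic.norm_int_le_pow_iff_dvd] at h2
  have h3 : p ^ V ∣ x.den := by exact_mod_cast h2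
  exact Nat.le_of_dvd x.den_pos h3

/-- a prime in the denominator gives norm larger than one -/
lemma norm_gt_of_dvd_den (x : ℚ) (h : p ∣ x.den) : 1 < ‖(x : ℚ_[p])‖ := by
  have hx : (x : ℚ_[p]) * ((x.den : ℕ) : ℚ_[p]) = ((x.num : ℤ) : ℚ_[p]) := by
    have := Rat.mul_den_eq_num x
    exact_mod_cast congrArg (fun q : ℚ => (q : ℚ_[p])) this
  have hden : ‖((x.den : ℕ) : ℚ_[p])‖ < 1 := Padic.norm_natCast_lt_one_iff.mpr h
  have hnum : ‖((x.num : ℤ) : ℚ_[p])‖ = 1 := by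
    rw [Padic.norm_intCast_eq_one_iff]
    have h1 : Nat.Coprime x.num.natAbs x.den := x.reduced
    have h2 : IsCoprime x.num (x.den : ℤ) := by
      rw [Int.isCoprime_iff_gcd_eq_one]
      show Nat.gcd x.num.natAbs ((x.den : ℤ)).natAbs = 1
      rw [Int.natAbs_natCast]
      exact h1
    exact h2.of_isCoprime_of_dvd_right (Int.natCast_dvd_natCast.mpr h)
  by_contra hcon
  rw [not_lt] at hcon
  have h1 : ‖(x : ℚ_[p])‖ * ‖((x.den : ℕ) : ℚ_[p])‖ = 1 := by rw [← norm_mul, hx, hnum]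
  have h2 : ‖(x : ℚ_[p])‖ * ‖((x.den : ℕ) : ℚ_[p])‖ ≤ 1 * ‖((x.den : ℕ) : ℚ_[p])‖ :=
    mul_le_mul_of_nonneg_right hcon (norm_nonneg _)
  linarith

end

end Pool.Agent.Work.H55M
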