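import Mathlib

/-!
The partial sums of the power series `F^(1/d)` of a rational polynomial `F` with `F(0) = c^d`.
-/

namespace Pool.Agent.Work.H55M

open Finset Polynomial

/-- partial sums of the `d`-th root with constant term `c` -/
noncomputable def Y (d c : ℕ) (F : ℚ[X]) : ℕ → ℚ[X]
  | 0 => C (c : ℚ)
  | n + 1 => Y d c F n +
      C ((F.coeff (n + 1) - ((Y d c F n) ^ d).coeff (n + 1)) / (d * (c : ℚ) ^ (d - 1))) * X ^ (n + 1)

/-- coefficients of the `d`-th root -/
noncomputable def ya (d c : ℕ) (F : ℚ[X]) (n : ℕ) : ℚ := (Y d c F n).coeff n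

lemma Y_natDegree (d c : ℕ) (F : ℚ[X]) (n : ℕ) : (Y d c F n).natDegree ≤ n := by
  induction n with
  | zero => simp [Y]
  | succ n ih =>
    rw [Y]
    refine (natDegree_add_le _ _).trans (max_le (ih.trans (Nat.le_succ n)) ?_)
    exact natDegree_C_mul_X_pow_le _ _

lemma Y_coeff_zero (d c : ℕ) (F : ℚ[X]) (n : ℕ) : (Y d c F n).coeff 0 = c := by
  induction n with
  | zero => simp [Y]
  | succ n ih =>
    rw [Y, coeff_add, ih, coeff_C_mul, coeff_X_pow]
    simp

lemma Y_coeff_succ_le (d c : ℕ) (F : ℚ[X]) (n i : ℕ) (h : i ≤ n) :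
    (Y d c F (n + 1)).coeff i = (Y d c F n).coeff i := by
  rw [Y, coeff_add, coeff_C_mul, coeff_X_pow, if_neg (by omega), mul_zero, add_zero]

lemma Y_coeff (d c : ℕ) (F : ℚ[X]) (n i : ℕ) :
    (Y d c F n).coeff i = if i ≤ n then ya d c F i else 0 := by
  split_ifs with h
  · induction n with
    | zero =>
      have : i = 0 := by omega
      subst this; rfl
    | succ n ih =>
      rcases Nat.lt_or_ge n i with h1 | h1
      · have : i = n + 1 := by omega
        subst this; rfl
      · rw [Y_coeff_succ_le d c F n i h1, ih h1]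
  · exact coeff_eq_zero_of_natDegree_lt ((Y_natDegree d c F n).trans_lt (by omega))

lemma Y_eq_sum (d c : ℕ) (F : ℚ[X]) (n : ℕ) :
    Y d c F n = ∑ i ∈ range (n + 1), C (ya d c F i) * X ^ i := by
  ext j
  rw [Y_coeff, finsetSum_coeff]
  simp only [coeff_C_mul, coeff_X_pow, mul_ite, mul_one, mul_zero]
  rw [Finset.sum_ite_eq]
  simp only [mem_range, Nat.lt_succ_iff]

/-- adding a high term changes the `d`-th power only at high terms -/
lemma pow_add_high (P : ℚ[X]) (a : ℚ) (m d : ℕ) (hm : 1 ≤ m) :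
    (∀ i < m, ((P + C a * X ^ m) ^ d).coeff i = (P ^ d).coeff i) ∧
    ((P + C a * X ^ m) ^ d).coeff m = (P ^ d).coeff m + d * P.coeff 0 ^ (d - 1) * a := by
  obtain ⟨k, hk⟩ := powAddExpansion P (C a * X ^ m) d
  have e : (P + C a * X ^ m) ^ d = P ^ d + C (d * a) * (P ^ (d - 1) * X ^ m) +
      C (a ^ 2) * k * X ^ (2 * m) := by
    rw [hk]
    simp only [C_mul, C_pow, map_natCast]
    ring
  have z : ∀ i, i ≤ m → ((C (a ^ 2) * k) * X ^ (2 * m)).coeff i = 0 := by
    intro i hi
    rw [coeff_mul_X_pow', if_neg (by omega)]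
  constructor
  · intro i hi
    rw [e, coeff_add, coeff_add, z i hi.le, coeff_C_mul, coeff_mul_X_pow', if_neg (by omega)]
    ring
  · rw [e, coeff_add, coeff_add, z m le_rfl, coeff_C_mul, coeff_mul_X_pow', if_pos le_rfl,
      Nat.sub_self, coeff_zero_eq_eval_zero, eval_pow, ← coeff_zero_eq_eval_zero]
    ring

lemma Y_spec (d c : ℕ) (hd : 1 ≤ d) (hc : 1 ≤ c) (F : ℚ[X]) (h0 : F.coeff 0 = (c : ℚ) ^ d) (n : ℕ) :
    ∀ i ≤ n, ((Y d c F n) ^ d).coeff i = F.coeff i := by
  have hne : (d : ℚ) * (c : ℚ) ^ (d - 1) ≠ 0 := by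
    have h1 : (d : ℚ) ≠ 0 := by exact_mod_cast (by omega : d ≠ 0)
    have h2 : (c : ℚ) ≠ 0 := by exact_mod_cast (by omega : c ≠ 0)
    positivity
  induction n with
  | zero =>
    intro i hi
    have : i = 0 := by omega
    subst this
    rw [Y, ← C_pow, coeff_C_zero, h0]
  | succ n ih =>
    intro i hi
    rw [Y]
    obtain ⟨h1, h2⟩ := pow_add_high (Y d c F n)
      ((F.coeff (n + 1) - ((Y d c F n) ^ d).coeff (n + 1)) / (d * (c : ℚ) ^ (d - 1))) (n + 1) d
      (by omega)
    rcases Nat.lt_or_ge i (n + 1) with hlt | hge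
    · rw [h1 i hlt, ih i (by omega)]
    · have : i = n + 1 := by omega
      subst this
      rw [h2, Y_coeff_zero]
      field_simp
      ring

/-- coefficient recursion -/
lemma ya_succ (d c : ℕ) (F : ℚ[X]) (n : ℕ) : ya d c F (n + 1) =
    (F.coeff (n + 1) - ((Y d c F n) ^ d).coeff (n + 1)) / (d * (c : ℚ) ^ (d - 1)) := by
  rw [ya, Y, coeff_add, coeff_eq_zero_of_natDegree_lt ((Y_natDegree d c F n).trans_lt (by omega)),
    coeff_C_mul, coeff_X_pow, if_pos rfl]
  ring

lemma ya_zero (d c : ℕ) (F : ℚ[X]) : ya d c F 0 = c := by simp [ya, Y]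

/-! ### a negative coefficient -/

lemma coeff_pow_zero (P : ℚ[X]) (d : ℕ) : (P ^ d).coeff 0 = P.coeff 0 ^ d := by
  rw [coeff_zero_eq_eval_zero, eval_pow, ← coeff_zero_eq_eval_zero]

lemma pow_coeff_nonneg (P : ℚ[X]) (hP : ∀ i, 0 ≤ P.coeff i) (d n : ℕ) : 0 ≤ (P ^ d).coeff n := by
  induction d generalizing n with
  | zero => rw [pow_zero, coeff_one]; split_ifs <;> norm_num
  | succ d ih =>
    rw [pow_succ, coeff_mul]
    exact Finset.sum_nonneg fun x _ => mul_nonneg (ih _) (hP _)

lemma pow_coeff_ge (P : ℚ[X]) (hP : ∀ i, 0 ≤ P.coeff i) (d n : ℕ) (hn : 1 ≤ n) :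
    d * P.coeff 0 ^ (d - 1) * P.coeff n ≤ (P ^ d).coeff n := by
  induction d with
  | zero =>
    simp only [Nat.cast_zero, zero_mul]
    exact pow_coeff_nonneg P hP 0 n
  | succ d ih =>
    rw [pow_succ, coeff_mul]
    have hsub : ({(n, 0), (0, n)} : Finset (ℕ × ℕ)) ⊆ antidiagonal n := by
      intro x hx
      simp only [Finset.mem_insert, Finset.mem_singleton] at hx
      rcases hx with rfl | rfl <;> simp
    have hne : ((n, 0) : ℕ × ℕ) ≠ (0, n) := by
      intro h
      have := congrArg Prod.fst h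
      simp only at this
      omega
    have h1 := Finset.sum_le_sum_of_subset_of_nonneg (f := fun x : ℕ × ℕ =>
      (P ^ d).coeff x.1 * P.coeff x.2) hsub
      (fun x _ _ => mul_nonneg (pow_coeff_nonneg P hP _ _) (hP _))
    rw [Finset.sum_pair hne] at h1
    refine le_trans ?_ h1
    simp only
    rw [coeff_pow_zero]
    have h2 := mul_le_mul_of_nonneg_right ih (hP 0)
    have h3 : ((d + 1 : ℕ) : ℚ) * P.coeff 0 ^ (d + 1 - 1) * P.coeff n =
        d * P.coeff 0 ^ (d - 1) * P.coeff n * P.coeff 0 + P.coeff 0 ^ d * P.coeff n := by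
      rcases Nat.eq_zero_or_pos d with rfl | hd
      · simp
      · have : d + 1 - 1 = (d - 1) + 1 := by omega
        rw [this, pow_succ]
        have e2 : P.coeff 0 ^ d = P.coeff 0 ^ (d - 1) * P.coeff 0 := by
          rw [← pow_succ, show d - 1 + 1 = d by omega]
        rw [e2]
        push_cast
        ring
    rw [h3]
    linarith

/-- if `F` of degree at most `D` is not a `d`-th power, some coefficient of its root of index at most
`d D` is negative -/
lemma exists_neg (d c D : ℕ) (hd : 1 ≤ d) (hc : 1 ≤ c) (F : ℚ[X]) (h0 : F.coeff 0 = (c : ℚ) ^ d)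
    (hD : F.natDegree ≤ D) (hnp : ∀ g : ℚ[X], g ^ d ≠ F) : ∃ n ≤ d * D, ya d c F n < 0 := by
  by_contra hcon
  push Not at hcon
  set L := d * D with hL
  have hDL : D ≤ L := Nat.le_mul_of_pos_left D hd
  set P := Y d c F L with hP
  have hnn : ∀ i, 0 ≤ P.coeff i := by
    intro i
    rw [hP, Y_coeff]
    split_ifs with h
    · exact hcon i h
    · exact le_rfl
  have hspec := Y_spec d c hd hc F h0 L
  have hzero : ∀ n, D < n → P.coeff n = 0 := by
    intro n hn
    rcases Nat.lt_or_ge L n with h | h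
    · rw [hP, Y_coeff, if_neg (by omega)]
    · have h1 := pow_coeff_ge P hnn d n (by omega)
      rw [hspec n h, coeff_eq_zero_of_natDegree_lt (hD.trans_lt hn), hP, Y_coeff_zero, ← hP] at h1
      have hpos : 0 < (d : ℚ) * (c : ℚ) ^ (d - 1) := by
        have h1 : 0 < (d : ℚ) := by exact_mod_cast hd
        have h2 : 0 < (c : ℚ) := by exact_mod_cast hc
        positivity
      have h2 := hnn n
      by_contra hne
      have h3 : 0 < P.coeff n := lt_of_le_of_ne h2 (Ne.symm hne)
      have := mul_pos hpos h3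
      linarith
  have hdeg : P.natDegree ≤ D := by
    rw [natDegree_le_iff_coeff_eq_zero]
    exact hzero
  refine hnp P ?_
  ext i
  rcases Nat.lt_or_ge L i with h | h
  · rw [coeff_eq_zero_of_natDegree_lt, coeff_eq_zero_of_natDegree_lt (hD.trans_lt (by omega))]
    exact (natDegree_pow_le.trans (Nat.mul_le_mul_left d hdeg)).trans_lt h
  · exact hspec i h

end Pool.Agent.Work.H55M
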